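import Mathlib

set_option autoImplicit false

/-! A plane curve over a finite field with a smooth rational point has an absolutely irreducible
factor over the field. -/

namespace Pool.Agent.Helper3K9.EV

open Polynomial

/-- the elements fixed by the Frobenius map -/
theorem mem_range_of_pow {F k : Type} [Field F] [Fintype F] [Field k] [Algebra F k] {c : k}
    (hc : c ^ Fintype.card F = c) : ∃ a : F, algebraMap F k a = c := by
  classical
  have hq := Fintype.one_lt_card (α := F)
  obtain ⟨P, hP⟩ : ∃ P : k[X], P = X ^ Fintype.card F - X := ⟨_, rfl⟩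
  have hdeg : P.natDegree = Fintype.card F := by
    rw [hP]
    exact FiniteField.X_pow_card_sub_X_natDegree_eq k hq
  have hP0 : P ≠ 0 := by
    rw [hP]
    exact FiniteField.X_pow_card_sub_X_ne_zero k hq
  obtain ⟨T, hT⟩ : ∃ T : Finset k, T = Finset.univ.image (algebraMap F k) := ⟨_, rfl⟩
  have hTc : T.card = Fintype.card F := by
    rw [hT, Finset.card_image_of_injective _ (algebraMap F k).injective, Finset.card_univ]
  have hsub : T ⊆ P.roots.toFinset := by
    intro x hx
    rw [hT, Finset.mem_image] at hx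
    obtain ⟨a, _, rfl⟩ := hx
    rw [Multiset.mem_toFinset, mem_roots hP0, IsRoot.def, hP]
    simp only [eval_sub, eval_pow, eval_X]
    rw [← map_pow, FiniteField.pow_card, sub_self]
  have heq : T = P.roots.toFinset := by
    apply Finset.eq_of_subset_of_card_le hsub
    rw [hTc, ← hdeg]
    exact (Multiset.toFinset_card_le _).trans (card_roots' _)
  have hmem : c ∈ T := by
    rw [heq, Multiset.mem_toFinset, mem_roots hP0, IsRoot.def, hP]
    simp only [eval_sub, eval_pow, eval_X]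
    rw [hc, sub_self]
  rw [hT, Finset.mem_image] at hmem
  obtain ⟨a, _, ha⟩ := hmem
  exact ⟨a, ha⟩

/-- evaluation at the point `(0, z)` -/
noncomputable def ev0 {k : Type} [Field k] (z : k) : k[X][X] →+* k :=
  (evalRingHom z).comp (mapRingHom (evalRingHom 0))

theorem ev0_apply {k : Type} [Field k] (z : k) (P : k[X][X]) :
    ev0 z P = (P.map (evalRingHom 0)).eval z := rfl

theorem exists_absirr {F k : Type} [Field F] [Fintype F] [Field k] [IsAlgClosed k] [Algebra F k]
    [Algebra.IsAlgebraic F k] {G : F[X][X]} (hG : G.Monic) {z₀ : F}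
    (h0 : (G.map (evalRingHom 0)).eval z₀ = 0)
    (h1 : (derivative (G.map (evalRingHom 0))).eval z₀ ≠ 0) :
    ∃ Φ : F[X][X], Φ.Monic ∧ Φ ∣ G ∧ Irreducible (Φ.map (mapRingHom (algebraMap F k))) ∧
      (Φ.map (evalRingHom 0)).eval z₀ = 0 := by
  classical
  obtain ⟨ι, hι⟩ : ∃ ι : F →+* k, ι = algebraMap F k := ⟨_, rfl⟩
  rw [← hι]
  obtain ⟨GK, hGK⟩ : ∃ GK : k[X][X], GK = G.map (mapRingHom ι) := ⟨_, rfl⟩
  have hGKm : GK.Monic := by
    rw [hGK]
    exact hG.map _
  -- evaluation of mapped polynomials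
  have hev : ∀ P : F[X][X], ev0 (ι z₀) (P.map (mapRingHom ι)) = ι ((P.map (evalRingHom 0)).eval z₀) := by
    intro P
    rw [ev0_apply, map_map]
    have h2 : (evalRingHom (0 : k)).comp (mapRingHom ι) = ι.comp (evalRingHom (0 : F)) := by
      ext
      · simp
      · simp
    rw [h2, ← map_map, eval_map, eval₂_at_apply]
  have hG0 : ev0 (ι z₀) GK = 0 := by
    rw [hGK, hev, h0, map_zero]
  have hG1 : ev0 (ι z₀) (derivative GK) ≠ 0 := by
    rw [hGK, derivative_map, hev, ← derivative_map]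
    rw [Ne, map_eq_zero]
    exact h1
  -- step A: an irreducible factor that vanishes at the point
  obtain ⟨P, hP, hPG, hP0⟩ : ∃ P : k[X][X], Irreducible P ∧ P ∣ GK ∧ ev0 (ι z₀) P = 0 := by
    obtain ⟨f, hf1, hf2⟩ := WfDvdMonoid.exists_factors GK hGKm.ne_zero
    have h2 : ev0 (ι z₀) f.prod = 0 := by
      obtain ⟨u, hu⟩ := hf2
      have h3 : ev0 (ι z₀) f.prod * ev0 (ι z₀) (u : k[X][X]) = 0 := by
        rw [← map_mul, hu, hG0]
      rcases mul_eq_zero.1 h3 with h4 | h4
      · exact h4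
      · exact absurd h4 (u.isUnit.map (ev0 (ι z₀))).ne_zero
    rw [map_multiset_prod, Multiset.prod_eq_zero_iff, Multiset.mem_map] at h2
    obtain ⟨P, hPf, hP0⟩ := h2
    exact ⟨P, hf1 P hPf, (Multiset.dvd_prod hPf).trans hf2.dvd, hP0⟩
  -- step B: it can be taken monic
  obtain ⟨P, hP, hPm, hPG, hP0⟩ : ∃ P : k[X][X], Irreducible P ∧ P.Monic ∧ P ∣ GK ∧ ev0 (ι z₀) P = 0 := by
    obtain ⟨Q, hQ⟩ := hPG
    have h2 : P.leadingCoeff * Q.leadingCoeff = 1 := by
      rw [← leadingCoeff_mul, ← hQ]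
      exact hGKm
    have hu : IsUnit (C Q.leadingCoeff : k[X][X]) :=
      isUnit_C.2 (IsUnit.of_mul_eq_one_right _ h2)
    refine ⟨P * C Q.leadingCoeff, ?_, ?_, ?_, ?_⟩
    · exact (irreducible_mul_isUnit hu).2 hP
    · rw [Monic, leadingCoeff_mul, leadingCoeff_C]
      exact h2
    · rw [hu.mul_right_dvd]
      exact ⟨Q, hQ⟩
    · rw [map_mul, hP0, zero_mul]
  -- step C: uniqueness
  have huniq : ∀ P' : k[X][X], Irreducible P' → P'.Monic → P' ∣ GK → ev0 (ι z₀) P' = 0 → P' = P := by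
    intro P' hP' hP'm hP'G hP'0
    by_contra hne
    have hnd : ¬ P ∣ P' := by
      intro hd
      have := hP.associated_of_dvd hP' hd
      exact hne (eq_of_monic_of_associated hPm hP'm this).symm
    obtain ⟨R, hR⟩ := hP'G
    have h2 : P ∣ P' * R := hR ▸ hPG
    rcases hP.prime.dvd_or_dvd h2 with h3 | h3
    · exact hnd h3
    · obtain ⟨R', hR'⟩ := h3
      apply hG1
      rw [hR, hR']
      simp only [derivative_mul, map_add, map_mul, hP0, hP'0, zero_mul, mul_zero, add_zero]
  -- step D: the Frobenius map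
  obtain ⟨σ, hσ⟩ : ∃ σ : k ≃+* k, ∀ x, σ x = x ^ Fintype.card F :=
    ⟨(FiniteField.frobeniusAlgEquivOfAlgebraic F k).toRingEquiv, fun x => rfl⟩
  have hσι : ∀ a : F, σ (ι a) = ι a := by
    intro a
    rw [hσ, ← map_pow, FiniteField.pow_card]
  obtain ⟨τ, hτ⟩ : ∃ τ : k[X][X] ≃+* k[X][X], ∀ Q, τ Q = Q.map (mapRingHom (σ : k →+* k)) :=
    ⟨mapEquiv (mapEquiv σ), fun Q => rfl⟩
  have hτG : τ GK = GK := by
    rw [hτ, hGK, map_map]
    congr 1
    ext
    · simp [hσι]
    · simp
  have hevτ : ∀ Q, ev0 (ι z₀) (τ Q) = σ (ev0 (ι z₀) Q) := by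
    intro Q
    rw [hτ, ev0_apply, ev0_apply, map_map]
    have h2 : (evalRingHom (0 : k)).comp (mapRingHom (σ : k →+* k)) = (σ : k →+* k).comp (evalRingHom (0 : k)) := by
      ext
      · simp
      · simp
    rw [h2, ← map_map]
    have h4 := eval₂_at_apply (p := Q.map (evalRingHom 0)) (σ : k →+* k) (ι z₀)
    rw [← eval_map] at h4
    have h5 : (σ : k →+* k) (ι z₀) = ι z₀ := hσι z₀
    rw [h5] at h4
    exact h4
  have hτP : τ P = P := by
    apply huniq
    · exact (MulEquiv.irreducible_iff τ).2 hP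
    · rw [hτ]
      exact hPm.map _
    · have h6 := map_dvd τ hPG
      rw [hτG] at h6
      exact h6
    · rw [hevτ, hP0, map_zero]
  -- step E: descent
  have hcoef : ∀ i j, ∃ a : F, ι a = (P.coeff i).coeff j := by
    intro i j
    rw [hι]
    apply mem_range_of_pow
    rw [← hσ]
    have h2 := congrArg (fun Q : k[X][X] => (Q.coeff i).coeff j) hτP
    simp only [hτ, coeff_map, coe_mapRingHom] at h2
    exact h2
  obtain ⟨Φ, hΦ⟩ : ∃ Φ : F[X][X], Φ.map (mapRingHom ι) = P := by
    have h2 : P ∈ lifts (mapRingHom ι) := by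
      rw [lifts_iff_coeff_lifts]
      intro i
      have h3 : P.coeff i ∈ lifts ι := by
        rw [lifts_iff_coeff_lifts]
        intro j
        obtain ⟨a, ha⟩ := hcoef i j
        exact ⟨a, ha⟩
      obtain ⟨Q, hQ⟩ := (mem_lifts _).1 h3
      exact ⟨Q, hQ⟩
    exact (mem_lifts _).1 h2
  have hinj : Function.Injective (mapRingHom ι) := Polynomial.map_injective _ ι.injective
  refine ⟨Φ, ?_, ?_, ?_, ?_⟩
  · apply monic_of_injective hinj
    rw [hΦ]
    exact hPm
  · rw [← Polynomial.map_dvd_map _ hinj (monic_of_injective hinj (by rw [hΦ]; exact hPm)), hΦ, ← hGK]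
    exact hPG
  · rw [hΦ]
    exact hP
  · apply ι.injective
    rw [← hev, hΦ, hP0, map_zero]

end Pool.Agent.Helper3K9.EV
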