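import Pool.Agent.Helper3K9.EV.Val
import Pool.Agent.Helper3K9.CI.Covers

set_option autoImplicit false

/-! The local densities of the covers of even degree. -/

namespace Pool.Agent.Helper3K9.EV

open MvPolynomial Pool.Agent.Helper3K9.CI

/-- the value at `w` of the polynomial
`w^D + ∑_i s_i(V; u) w^{D-1-i} + ∑_j t_j F_j(V)`, where `c = (u, t)` -/
noncomputable def evc {A : Type} [CommRing A] {r D l k : ℕ}
    (s : Fin D → MvPolynomial ((Fin r × Fin 3) ⊕ Fin l) ℤ) (F : Fin k → MvPolynomial (Fin r × Fin 3) ℤ)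
    (V : Fin r → Fin 3 → A) (c : Fin l ⊕ Fin k → A) (w : A) : A :=
  w ^ D + ∑ i : Fin D, aeval (Sum.elim (fun ij : Fin r × Fin 3 => V ij.1 ij.2) (fun m => c (Sum.inl m))) (s i) *
    w ^ (D - 1 - (i : ℕ)) +
    ∑ j : Fin k, c (Sum.inr j) * aeval (fun ij : Fin r × Fin 3 => V ij.1 ij.2) (F j)

theorem card_image_neg {F : Type} [Field F] [Fintype F] [DecidableEq F] {k : ℕ} (f : Fin k → F)
    (hf : ∃ j, f j ≠ 0) (T : Finset F) :
    (Finset.univ.filter fun t : Fin k → F => -(∑ j, t j * f j) ∈ T).card * Fintype.card F =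
      T.card * (Fintype.card F) ^ k := by
  classical
  obtain ⟨L, hL⟩ : ∃ L : (Fin k → F) →ₗ[F] F, ∀ t, L t = -(∑ j, t j * f j) := by
    refine ⟨{ toFun := fun t => -(∑ j, t j * f j), map_add' := ?_, map_smul' := ?_ }, fun t => rfl⟩
    · intro t t'
      simp only [Pi.add_apply, add_mul, Finset.sum_add_distrib]
      ring
    · intro a t
      simp only [Pi.smul_apply, smul_eq_mul, mul_assoc, ← Finset.mul_sum, RingHom.id_apply]
      ring
  obtain ⟨j₀, hj₀⟩ := hf
  have hsurj : Function.Surjective L := by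
    intro y
    refine ⟨Pi.single j₀ (-y / f j₀), ?_⟩
    rw [hL, Finset.sum_eq_single j₀]
    · rw [Pi.single_eq_same]
      field_simp
    · intro j _ hj
      rw [Pi.single_eq_of_ne hj, zero_mul]
    · intro h
      exact absurd (Finset.mem_univ _) h
  have h1 : (Finset.univ.filter fun t : Fin k → F => -(∑ j, t j * f j) ∈ T).card =
      ∑ y ∈ T, (Finset.univ.filter fun t : Fin k → F => L t = y).card := by
    rw [Finset.card_eq_sum_card_fiberwise (t := T) (f := fun t => L t)]
    · apply Finset.sum_congr rfl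
      intro y hy
      congr 1
      ext t
      simp only [Finset.mem_filter, Finset.mem_univ, true_and, ← hL]
      constructor
      · rintro ⟨_, h⟩
        exact h
      · intro h
        exact ⟨by rw [h]; exact hy, h⟩
    · intro t ht
      rw [Finset.mem_coe, Finset.mem_filter, ← hL] at ht
      exact ht.2
  rw [h1, Finset.sum_mul]
  have h2 : ∀ y ∈ T, (Finset.univ.filter fun t : Fin k → F => L t = y).card * Fintype.card F =
      (Fintype.card F) ^ k := by
    intro y _
    have h3 := card_fib L hsurj y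
    rw [Nat.card_eq_fintype_card, Nat.card_eq_fintype_card, Nat.card_eq_fintype_card, Fintype.card_subtype,
      Fintype.card_fun, Fintype.card_fin] at h3
    exact h3
  rw [Finset.sum_congr rfl h2, Finset.sum_const, smul_eq_mul]

theorem dens (D : ℕ) (hD2 : 2 ≤ D) (hD : Even D) : ∃ q₀ : ℕ, ∀ (F : Type) [Field F] [Fintype F],
    q₀ ≤ Fintype.card F → (D : F) ≠ 0 → ∀ (r l k : ℕ)
    (s : Fin D → MvPolynomial ((Fin r × Fin 3) ⊕ Fin l) ℤ) (f : Fin k → MvPolynomial (Fin r × Fin 3) ℤ)
    (V : Fin r → Fin 3 → F), (∃ j, aeval (fun ij : Fin r × Fin 3 => V ij.1 ij.2) (f j) ≠ 0) →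
    (({c : Fin l ⊕ Fin k → F | ∃ w, evc s f V c w = 0}.ncard : ℕ) : ℝ) ≤
      (1 - 1 / (2 * D)) * (Fintype.card F : ℝ) ^ (l + k) := by
  obtain ⟨q₀, hq₀⟩ := value_set D hD2 hD
  refine ⟨q₀, ?_⟩
  intro F _ _ hq hDF r l k s f V hV
  classical
  obtain ⟨q, hqd⟩ : ∃ q, q = Fintype.card F := ⟨_, rfl⟩
  have hq0 : (0 : ℝ) < q := by
    rw [hqd]
    exact_mod_cast Fintype.card_pos
  -- the polynomial
  obtain ⟨Ψ, hΨ⟩ : ∃ Ψ : (Fin l → F) → Polynomial F, Ψ = fun u => Polynomial.X ^ D + ∑ i : Fin D,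
      Polynomial.C (aeval (Sum.elim (fun ij : Fin r × Fin 3 => V ij.1 ij.2) u) (s i)) *
        Polynomial.X ^ (D - 1 - (i : ℕ)) := ⟨_, rfl⟩
  have hdeg : ∀ u : Fin l → F, (∑ i : Fin D,
      Polynomial.C (aeval (Sum.elim (fun ij : Fin r × Fin 3 => V ij.1 ij.2) u) (s i)) *
        Polynomial.X ^ (D - 1 - (i : ℕ)) : Polynomial F).degree < D := by
    intro u
    apply lt_of_le_of_lt (Polynomial.degree_sum_le _ _)
    rw [Finset.sup_lt_iff (by exact_mod_cast WithBot.bot_lt_coe D)]
    intro i _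
    refine lt_of_le_of_lt (Polynomial.degree_C_mul_X_pow_le _ _) ?_
    have := i.2
    exact_mod_cast (show D - 1 - (i : ℕ) < D by omega)
  have hnat : ∀ u, (Ψ u).natDegree = D := by
    intro u
    rw [hΨ]
    apply Polynomial.natDegree_eq_of_degree_eq_some
    simp only
    rw [Polynomial.degree_add_eq_left_of_degree_lt (by rw [Polynomial.degree_X_pow]; exact hdeg u),
      Polynomial.degree_X_pow]
  have hmon : ∀ u, (Ψ u).coeff D = 1 := by
    intro u
    have h1 : (Ψ u).Monic := by
      rw [hΨ]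
      exact Polynomial.monic_X_pow_add (hdeg u)
    have h2 := h1.coeff_natDegree
    rw [hnat] at h2
    exact h2
  obtain ⟨T, hT⟩ : ∃ T : (Fin l → F) → Finset F, T = fun u => Finset.univ.image fun x => (Ψ u).eval x :=
    ⟨_, rfl⟩
  have hTc : ∀ u, ((T u).card : ℝ) ≤ (1 - 1 / (2 * D)) * q := by
    intro u
    rw [hT, hqd]
    exact hq₀ F hq hDF (Ψ u) (hmon u) (hnat u).le
  obtain ⟨g, hg⟩ : ∃ g : Fin k → F, g = fun j => aeval (fun ij : Fin r × Fin 3 => V ij.1 ij.2) (f j) :=
    ⟨_, rfl⟩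
  -- the set
  have hset : ∀ (u : Fin l → F) (t : Fin k → F), (∃ w, evc s f V (Sum.elim u t) w = 0) ↔
      -(∑ j, t j * g j) ∈ T u := by
    intro u t
    rw [hT]
    simp only [Finset.mem_image, Finset.mem_univ, true_and]
    apply exists_congr
    intro w
    have h1 : evc s f V (Sum.elim u t) w = (Ψ u).eval w + ∑ j, t j * g j := by
      unfold evc
      rw [hΨ, hg]
      simp only [Polynomial.eval_add, Polynomial.eval_pow, Polynomial.eval_X, Polynomial.eval_finsetSum,
        Polynomial.eval_mul, Polynomial.eval_C, Sum.elim_inl, Sum.elim_inr]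
    rw [h1, add_eq_zero_iff_eq_neg]
  have hcount : {c : Fin l ⊕ Fin k → F | ∃ w, evc s f V c w = 0}.ncard =
      ∑ u : Fin l → F, (Finset.univ.filter fun t : Fin k → F => -(∑ j, t j * g j) ∈ T u).card := by
    have h1 : {c : Fin l ⊕ Fin k → F | ∃ w, evc s f V c w = 0} =
        (((Finset.univ : Finset (Fin l → F)).sigma fun u =>
          Finset.univ.filter fun t : Fin k → F => -(∑ j, t j * g j) ∈ T u).image
          (fun z => (Sum.elim z.1 z.2 : Fin l ⊕ Fin k → F)) : Finset (Fin l ⊕ Fin k → F)) := by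
      ext c
      rw [Finset.mem_coe, Finset.mem_image]
      constructor
      · rintro ⟨w, hw⟩
        refine ⟨⟨fun m => c (Sum.inl m), fun m => c (Sum.inr m)⟩, ?_, ?_⟩
        · rw [Finset.mem_sigma]
          refine ⟨Finset.mem_univ _, ?_⟩
          rw [Finset.mem_filter]
          refine ⟨Finset.mem_univ _, ?_⟩
          rw [← hset]
          refine ⟨w, ?_⟩
          convert hw using 2
          funext m
          rcases m with m | m <;> rfl
        · funext m
          rcases m with m | m <;> rfl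
      · rintro ⟨z, hz, rfl⟩
        rw [Finset.mem_sigma, Finset.mem_filter, ← hset] at hz
        exact hz.2.2
    rw [h1, Set.ncard_coe_finset, Finset.card_image_of_injective, Finset.card_sigma]
    rintro ⟨u, t⟩ ⟨u', t'⟩ h
    have h2 : u = u' := by
      funext m
      exact congrFun h (Sum.inl m)
    have h3 : t = t' := by
      funext m
      exact congrFun h (Sum.inr m)
    rw [h2, h3]
  rw [hcount]
  push_cast
  have h4 : ∀ u ∈ (Finset.univ : Finset (Fin l → F)),
      ((Finset.univ.filter fun t : Fin k → F => -(∑ j, t j * g j) ∈ T u).card : ℝ) ≤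
        (1 - 1 / (2 * D)) * (q : ℝ) ^ k := by
    intro u _
    have h5 := card_image_neg g (by rw [hg]; exact hV) (T u)
    rw [← hqd] at h5
    have h6 : ((Finset.univ.filter fun t : Fin k → F => -(∑ j, t j * g j) ∈ T u).card : ℝ) * q =
        (T u).card * (q : ℝ) ^ k := by exact_mod_cast h5
    have h7 : ((T u).card : ℝ) * (q : ℝ) ^ k ≤ (1 - 1 / (2 * D)) * q * (q : ℝ) ^ k :=
      mul_le_mul_of_nonneg_right (hTc u) (by positivity)
    rw [← h6] at h7
    have h8 : (1 - 1 / (2 * (D : ℝ))) * q * (q : ℝ) ^ k = (1 - 1 / (2 * D)) * (q : ℝ) ^ k * q := by ring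
    rw [h8] at h7
    exact le_of_mul_le_mul_right h7 hq0
  refine (Finset.sum_le_sum h4).trans ?_
  rw [Finset.sum_const, Finset.card_univ, Fintype.card_fun, Fintype.card_fin, ← hqd, nsmul_eq_mul, pow_add]
  push_cast
  apply le_of_eq
  ring

end Pool.Agent.Helper3K9.EV
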