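import Pool.Agent.Helper3K9.EV.ValJ
import Pool.Agent.Helper3K9.EV.Main3

set_option autoImplicit false

/-! Covers of any degree, of which one middle coefficient varies: local densities. -/

namespace Pool.Agent.Helper3K9.EV

open MvPolynomial Pool.Agent.Helper3K9.CI

/-- the value at `w` of the polynomial
`w^D + ∑_i s_i(V; u) w^{D-1-i} + (∑_n t_n F_n(V)) w^j`, where `c = (u, t)` -/
noncomputable def evj {A : Type} [CommRing A] {r D l k : ℕ} (j : ℕ)
    (s : Fin D → MvPolynomial ((Fin r × Fin 3) ⊕ Fin l) ℤ) (F : Fin k → MvPolynomial (Fin r × Fin 3) ℤ)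
    (V : Fin r → Fin 3 → A) (c : Fin l ⊕ Fin k → A) (w : A) : A :=
  w ^ D + ∑ i : Fin D, aeval (Sum.elim (fun ij : Fin r × Fin 3 => V ij.1 ij.2) (fun m => c (Sum.inl m))) (s i) *
    w ^ (D - 1 - (i : ℕ)) +
    (∑ n : Fin k, c (Sum.inr n) * aeval (fun ij : Fin r × Fin 3 => V ij.1 ij.2) (F n)) * w ^ j

theorem densj (D j : ℕ) (hj1 : 1 ≤ j) (hj : j < D) (hD : Even (D - j)) : ∃ q₀ : ℕ, ∀ (F : Type) [Field F]
    [Fintype F], q₀ ≤ Fintype.card F → ((D - j : ℕ) : F) ≠ 0 → ∀ (r l k : ℕ)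
    (s : Fin D → MvPolynomial ((Fin r × Fin 3) ⊕ Fin l) ℤ) (f : Fin k → MvPolynomial (Fin r × Fin 3) ℤ)
    (V : Fin r → Fin 3 → F), (∃ n, aeval (fun ij : Fin r × Fin 3 => V ij.1 ij.2) (f n) ≠ 0) →
    (∀ (i : Fin D), (i : ℕ) + 1 = D → ∀ u : Fin l → F,
      aeval (Sum.elim (fun ij : Fin r × Fin 3 => V ij.1 ij.2) u) (s i) ≠ 0) →
    (({c : Fin l ⊕ Fin k → F | ∃ w, evj j s f V c w = 0}.ncard : ℕ) : ℝ) ≤
      (1 - 1 / (2 * D)) * (Fintype.card F : ℝ) ^ (l + k) := by
  obtain ⟨q₀, hq₀⟩ := value_set_j D j hj1 hj hD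
  refine ⟨q₀, ?_⟩
  intro F _ _ hq hDF r l k s f V hV hS
  classical
  obtain ⟨q, hqd⟩ : ∃ q, q = Fintype.card F := ⟨_, rfl⟩
  have hq0 : (0 : ℝ) < q := by
    rw [hqd]
    exact_mod_cast Fintype.card_pos
  -- the polynomial
  obtain ⟨Ψ, hΨ⟩ : ∃ Ψ : (Fin l → F) → Polynomial F, Ψ = fun u => Polynomial.X ^ D + ∑ i : Fin D,
      Polynomial.C (aeval (Sum.elim (fun ij : Fin r × Fin 3 => V ij.1 ij.2) u) (s i)) *
        Polynomial.X ^ (D - 1 - (i : ℕ)) := ⟨_, rfl⟩
  have hdeg : ∀ u : Fin l → F, (∑ i : Fin D,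
      Polynomial.C (aeval (Sum.elim (fun ij : Fin r × Fin 3 => V ij.1 ij.2) u) (s i)) *
        Polynomial.X ^ (D - 1 - (i : ℕ)) : Polynomial F).degree < D := by
    intro u
    apply lt_of_le_of_lt (Polynomial.degree_sum_le _ _)
    rw [Finset.sup_lt_iff (by exact_mod_cast WithBot.bot_lt_coe D)]
    intro i _
    refine lt_of_le_of_lt (Polynomial.degree_C_mul_X_pow_le _ _) ?_
    have := i.2
    exact_mod_cast (show D - 1 - (i : ℕ) < D by omega)
  have hnat : ∀ u, (Ψ u).natDegree = D := by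
    intro u
    rw [hΨ]
    apply Polynomial.natDegree_eq_of_degree_eq_some
    simp only
    rw [Polynomial.degree_add_eq_left_of_degree_lt (by rw [Polynomial.degree_X_pow]; exact hdeg u),
      Polynomial.degree_X_pow]
  have hmon : ∀ u, (Ψ u).coeff D = 1 := by
    intro u
    have h1 : (Ψ u).Monic := by
      rw [hΨ]
      exact Polynomial.monic_X_pow_add (hdeg u)
    have h2 := h1.coeff_natDegree
    rw [hnat] at h2
    exact h2
  have hev : ∀ u w, (Ψ u).eval w = w ^ D + ∑ i : Fin D,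
      aeval (Sum.elim (fun ij : Fin r × Fin 3 => V ij.1 ij.2) u) (s i) * w ^ (D - 1 - (i : ℕ)) := by
    intro u w
    rw [hΨ]
    simp only [Polynomial.eval_add, Polynomial.eval_pow, Polynomial.eval_X, Polynomial.eval_finsetSum,
      Polynomial.eval_mul, Polynomial.eval_C]
  have hD0 : D ≠ 0 := by omega
  have hz : ∀ u, (Ψ u).eval 0 ≠ 0 := by
    intro u
    rw [hev, zero_pow hD0, zero_add, Finset.sum_eq_single (⟨D - 1, by omega⟩ : Fin D)]
    · rw [Nat.sub_self, pow_zero, mul_one]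
      exact hS _ (by simp only; omega) u
    · intro i _ hi
      have h1 : (i : ℕ) ≠ D - 1 := fun h => hi (Fin.ext h)
      have h2 := i.2
      rw [zero_pow (by omega), mul_zero]
    · intro h
      exact absurd (Finset.mem_univ _) h
  have hcoef0 : ∀ u, (Ψ u).coeff 0 ≠ 0 := by
    intro u
    rw [Polynomial.coeff_zero_eq_eval_zero]
    exact hz u
  obtain ⟨T, hT⟩ : ∃ T : (Fin l → F) → Finset F, T = fun u =>
      (Finset.univ.filter fun x : F => x ≠ 0).image fun x => (Ψ u).eval x / x ^ j := ⟨_, rfl⟩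
  have hTc : ∀ u, ((T u).card : ℝ) ≤ (1 - 1 / (2 * D)) * q := by
    intro u
    rw [hT, hqd]
    exact hq₀ F hq hDF (Ψ u) (hmon u) (hnat u).le (hcoef0 u)
  obtain ⟨g, hg⟩ : ∃ g : Fin k → F, g = fun j => aeval (fun ij : Fin r × Fin 3 => V ij.1 ij.2) (f j) :=
    ⟨_, rfl⟩
  -- the set
  have hset : ∀ (u : Fin l → F) (t : Fin k → F), (∃ w, evj j s f V (Sum.elim u t) w = 0) ↔
      -(∑ n, t n * g n) ∈ T u := by
    intro u t
    have h1 : ∀ w, evj j s f V (Sum.elim u t) w = (Ψ u).eval w + (∑ n, t n * g n) * w ^ j := by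
      intro w
      rw [hev]
      unfold evj
      rw [hg]
      simp only [Sum.elim_inl, Sum.elim_inr]
    rw [hT]
    simp only [Finset.mem_image, Finset.mem_filter, Finset.mem_univ, true_and]
    constructor
    · rintro ⟨w, hw⟩
      rw [h1] at hw
      have hw0 : w ≠ 0 := by
        intro h
        rw [h, zero_pow (by omega), mul_zero, add_zero] at hw
        exact hz u hw
      refine ⟨w, hw0, ?_⟩
      rw [div_eq_iff (pow_ne_zero _ hw0)]
      linear_combination hw
    · rintro ⟨w, hw0, hw⟩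
      refine ⟨w, ?_⟩
      rw [h1]
      rw [div_eq_iff (pow_ne_zero _ hw0)] at hw
      linear_combination hw
  have hcount : {c : Fin l ⊕ Fin k → F | ∃ w, evj j s f V c w = 0}.ncard =
      ∑ u : Fin l → F, (Finset.univ.filter fun t : Fin k → F => -(∑ n, t n * g n) ∈ T u).card := by
    have h1 : {c : Fin l ⊕ Fin k → F | ∃ w, evj j s f V c w = 0} =
        (((Finset.univ : Finset (Fin l → F)).sigma fun u =>
          Finset.univ.filter fun t : Fin k → F => -(∑ n, t n * g n) ∈ T u).image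
          (fun z => (Sum.elim z.1 z.2 : Fin l ⊕ Fin k → F)) : Finset (Fin l ⊕ Fin k → F)) := by
      ext c
      rw [Finset.mem_coe, Finset.mem_image]
      constructor
      · rintro ⟨w, hw⟩
        refine ⟨⟨fun m => c (Sum.inl m), fun m => c (Sum.inr m)⟩, ?_, ?_⟩
        · rw [Finset.mem_sigma]
          refine ⟨Finset.mem_univ _, ?_⟩
          rw [Finset.mem_filter]
          refine ⟨Finset.mem_univ _, ?_⟩
          rw [← hset]
          refine ⟨w, ?_⟩
          convert hw using 2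
          funext m
          rcases m with m | m <;> rfl
        · funext m
          rcases m with m | m <;> rfl
      · rintro ⟨z, hz, rfl⟩
        rw [Finset.mem_sigma, Finset.mem_filter, ← hset] at hz
        exact hz.2.2
    rw [h1, Set.ncard_coe_finset, Finset.card_image_of_injective, Finset.card_sigma]
    rintro ⟨u, t⟩ ⟨u', t'⟩ h
    have h2 : u = u' := by
      funext m
      exact congrFun h (Sum.inl m)
    have h3 : t = t' := by
      funext m
      exact congrFun h (Sum.inr m)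
    rw [h2, h3]
  rw [hcount]
  push_cast
  have h4 : ∀ u ∈ (Finset.univ : Finset (Fin l → F)),
      ((Finset.univ.filter fun t : Fin k → F => -(∑ n, t n * g n) ∈ T u).card : ℝ) ≤
        (1 - 1 / (2 * D)) * (q : ℝ) ^ k := by
    intro u _
    have h5 := card_image_neg g (by rw [hg]; exact hV) (T u)
    rw [← hqd] at h5
    have h6 : ((Finset.univ.filter fun t : Fin k → F => -(∑ n, t n * g n) ∈ T u).card : ℝ) * q =
        (T u).card * (q : ℝ) ^ k := by exact_mod_cast h5
    have h7 : ((T u).card : ℝ) * (q : ℝ) ^ k ≤ (1 - 1 / (2 * D)) * q * (q : ℝ) ^ k :=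
      mul_le_mul_of_nonneg_right (hTc u) (by positivity)
    rw [← h6] at h7
    have h8 : (1 - 1 / (2 * (D : ℝ))) * q * (q : ℝ) ^ k = (1 - 1 / (2 * D)) * (q : ℝ) ^ k * q := by ring
    rw [h8] at h7
    exact le_of_mul_le_mul_right h7 hq0
  refine (Finset.sum_le_sum h4).trans ?_
  rw [Finset.sum_const, Finset.card_univ, Fintype.card_fun, Fintype.card_fin, ← hqd, nsmul_eq_mul, pow_add]
  push_cast
  apply le_of_eq
  ring

end Pool.Agent.Helper3K9.EV
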