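import Pool.Agent.Helper3K9.EV.DensJ

set_option autoImplicit false

/-! Almost all members of a linear family of covers, of which one middle coefficient varies, have no rational
points. -/

namespace Pool.Agent.Helper3K9.EV

open MvPolynomial Pool.Agent.W659 Pool.Agent.Helper3K9.CI

section

variable {r D l k N : ℕ} (j : ℕ) (e : Fin r → ℕ) (s : Fin D → MvPolynomial ((Fin r × Fin 3) ⊕ Fin l) ℤ)
  (F : Fin k → MvPolynomial (Fin r × Fin 3) ℤ) (φ : (Fin l ⊕ Fin k) ≃ Fin N)

/-- the universal monic polynomial of degree `D`, homogenized -/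
noncomputable def upolj : Poly r N 1 :=
  X (Sum.inr (Sum.inr 1)) ^ D + ∑ i : Fin D,
    rename (emb φ) (s i) * (X (Sum.inr (Sum.inr 1)) ^ (D - 1 - (i : ℕ)) * X (Sum.inr (Sum.inr 0)) ^ ((i : ℕ) + 1)) +
    ∑ n : Fin k, (X (Sum.inr (Sum.inl (φ (Sum.inr n)))) * rename Sum.inl (F n)) *
      (X (Sum.inr (Sum.inr 1)) ^ j * X (Sum.inr (Sum.inr 0)) ^ (D - j))

theorem val_upolj {A : Type} [CommRing A] (V : Fin r → Fin 3 → A) (c : Fin N → A) (x : Fin 2 → A) :
    val (upolj j s F φ) V c x = x 1 ^ D + ∑ i : Fin D,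
      aeval (Sum.elim (fun ij : Fin r × Fin 3 => V ij.1 ij.2) (fun m => c (φ (Sum.inl m)))) (s i) *
        (x 1 ^ (D - 1 - (i : ℕ)) * x 0 ^ ((i : ℕ) + 1)) +
      ∑ n : Fin k, (c (φ (Sum.inr n)) * aeval (fun ij : Fin r × Fin 3 => V ij.1 ij.2) (F n)) *
        (x 1 ^ j * x 0 ^ (D - j)) := by
  unfold val upolj
  simp only [map_add, map_sum, map_mul, map_pow, aeval_X, Sum.elim_inr, Sum.elim_inl, aeval_rename]
  congr 2
  refine Finset.sum_congr rfl fun i _ => ?_
  congr 2
  congr 1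
  funext m
  rcases m with m | m <;> rfl

theorem homog_upolj (hj : j ≤ D)
    (hs : ∀ i, ∀ m ∈ (s i).support, ∀ n, ∑ q, m (Sum.inl (n, q)) = ((i : ℕ) + 1) * e n)
    (hF : ∀ q, ∀ m ∈ (F q).support, ∀ n, ∑ i, m (n, i) = (D - j) * e n) :
    (upolj j s F φ).IsWeightedHomogeneous (wt N (kap e)) (fun n => D * e n, D) := by
  unfold upolj
  have hx1 : (X (Sum.inr (Sum.inr 1)) : Poly r N 1).IsWeightedHomogeneous (wt N (kap e)) (e, 1) :=
    isWeightedHomogeneous_X _ _ _
  have hx0 : (X (Sum.inr (Sum.inr 0)) : Poly r N 1).IsWeightedHomogeneous (wt N (kap e)) (0, 1) :=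
    isWeightedHomogeneous_X _ _ _
  refine IsWeightedHomogeneous.add (IsWeightedHomogeneous.add ?_
    (IsWeightedHomogeneous.sum _ _ _ fun i _ => ?_)) (IsWeightedHomogeneous.sum _ _ _ fun q _ => ?_)
  · have h := hx1.pow D
    convert h using 1
    ext n
    · simp
    · simp
  · have h1 : (rename (emb φ) (s i) : Poly r N 1).IsWeightedHomogeneous (wt N (kap e))
        (fun n => ((i : ℕ) + 1) * e n, 0) := by
      intro m hm
      obtain ⟨m', hm', hm'2⟩ := coeff_rename_ne_zero _ _ _ hm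
      rw [← hm', Finsupp.weight_apply, Finsupp.sum_mapDomain_index (by simp) (by
        intro a b c
        rw [add_smul])]
      rw [Finsupp.sum_fintype _ _ (by simp), Fintype.sum_sum_type]
      have h2 := hs i m' (mem_support_iff.2 hm'2)
      ext n
      · simp only [emb, wt, Sum.elim_inl, Sum.elim_inr, smul_zero, Finset.sum_const_zero, add_zero,
          Prod.fst_sum, Prod.smul_fst, Finset.sum_apply, Pi.smul_apply]
        rw [Fintype.sum_prod_type, Finset.sum_eq_single n]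
        · simp only [Pi.single_eq_same, smul_eq_mul, mul_one]
          exact h2 n
        · intro l' _ hl'
          apply Finset.sum_eq_zero
          intro j _
          rw [Pi.single_eq_of_ne (Ne.symm hl'), smul_zero]
        · simp
      · simp only [emb, wt, Sum.elim_inl, Sum.elim_inr, Prod.snd_sum, Prod.smul_snd, smul_zero,
          Finset.sum_const_zero, add_zero]
    have h5 := h1.mul ((hx1.pow (D - 1 - (i : ℕ))).mul (hx0.pow ((i : ℕ) + 1)))
    convert h5 using 1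
    have hi := i.2
    ext n
    · simp only [Prod.fst_add, Pi.add_apply, Prod.smul_fst, Pi.smul_apply, smul_eq_mul, smul_zero, add_zero]
      rw [← add_mul]
      congr 1
      omega
    · simp only [Prod.snd_add, Prod.smul_snd, smul_eq_mul, mul_one]
      omega
  · have h1 : (rename Sum.inl (F q) : Poly r N 1).IsWeightedHomogeneous (wt N (kap e))
        (fun n => (D - j) * e n, 0) := by
      intro m hm
      obtain ⟨m', hm', hm'2⟩ := coeff_rename_ne_zero _ _ _ hm
      rw [← hm', Finsupp.weight_apply, Finsupp.sum_mapDomain_index (by simp) (by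
        intro a b c
        rw [add_smul])]
      rw [Finsupp.sum_fintype _ _ (by simp)]
      have h2 := hF q m' (mem_support_iff.2 hm'2)
      ext n
      · simp only [wt, Sum.elim_inl, Prod.fst_sum, Prod.smul_fst, Finset.sum_apply, Pi.smul_apply]
        rw [Fintype.sum_prod_type, Finset.sum_eq_single n]
        · simp only [Pi.single_eq_same, smul_eq_mul, mul_one]
          exact h2 n
        · intro l' _ hl'
          apply Finset.sum_eq_zero
          intro j _
          rw [Pi.single_eq_of_ne (Ne.symm hl'), smul_zero]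
        · simp
      · simp only [wt, Sum.elim_inl, Prod.snd_sum, Prod.smul_snd, smul_zero, Finset.sum_const_zero]
    have h2 : (X (Sum.inr (Sum.inl (φ (Sum.inr q)))) : Poly r N 1).IsWeightedHomogeneous (wt N (kap e)) 0 :=
      isWeightedHomogeneous_X _ _ _
    have h5 := (h2.mul h1).mul ((hx1.pow j).mul (hx0.pow (D - j)))
    convert h5 using 1
    ext n
    · simp only [zero_add, Prod.fst_add, Pi.add_apply, Prod.smul_fst, Pi.smul_apply, smul_eq_mul, smul_zero, add_zero]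
      rw [← add_mul, Nat.sub_add_cancel hj]
    · simp only [zero_add, Prod.snd_add, Prod.smul_snd, smul_eq_mul, mul_one]
      omega

end

theorem middle_covers (r D j l k : ℕ) (hj1 : 1 ≤ j) (hj : j < D) (hD : Even (D - j)) (hk : 1 ≤ k)
    (a b : Fin r → ℤ) (M D₀ : ℕ)
    (hM : 0 < M) (hD₀ : 0 < D₀) (hdisc : ∀ i, 4 * a i ^ 3 + 27 * b i ^ 2 ≠ 0)
    (hss : ∀ i, ∀ p : ℕ, p.Prime → ¬ p ∣ D₀ → M ∣ p + 1 →
      Nat.card {z : ZMod p × ZMod p // z.2 ^ 2 = z.1 ^ 3 + a i * z.1 + b i} = p)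
    (e : Fin r → ℕ) (s : Fin D → MvPolynomial ((Fin r × Fin 3) ⊕ Fin l) ℤ)
    (hs : ∀ i, ∀ m ∈ (s i).support, ∀ n, ∑ q, m (Sum.inl (n, q)) = ((i : ℕ) + 1) * e n)
    (F : Fin k → MvPolynomial (Fin r × Fin 3) ℤ)
    (hF : ∀ q, ∀ m ∈ (F q).support, ∀ n, ∑ i, m (n, i) = (D - j) * e n)
    (hF0 : ∀ (p : ℕ) [Fact p.Prime], ¬ p ∣ D₀ → M ∣ p + 1 → ∀ V : Fin r → Fin 3 → ZMod p,
      (∀ i, FD.OnE (a i) (b i) (V i)) → ∃ q, aeval (fun ij : Fin r × Fin 3 => V ij.1 ij.2) (F q) ≠ 0)
    (hS0 : ∀ (p : ℕ) [Fact p.Prime], ¬ p ∣ D₀ → M ∣ p + 1 → ∀ V : Fin r → Fin 3 → ZMod p,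
      (∀ i, FD.OnE (a i) (b i) (V i)) → ∀ i : Fin D, (i : ℕ) + 1 = D → ∀ u : Fin l → ZMod p,
        aeval (Sum.elim (fun ij : Fin r × Fin 3 => V ij.1 ij.2) u) (s i) ≠ 0)
    (ε : ℝ) (hε : 0 < ε) :
    ∃ C : ℝ, ∀ H : ℕ, 1 ≤ H →
      (({c : Fin l ⊕ Fin k → ℤ | (∀ m, |c m| ≤ H) ∧
        ∃ (V : Fin r → Fin 3 → ℚ) (w : ℚ), (∀ i, FD.OnE (a i) (b i) (V i)) ∧
          evj j s F V (fun m => (c m : ℚ)) w = 0}.ncard : ℕ) : ℝ) ≤
        C * (H : ℝ) ^ ((l : ℝ) + k - 1 / 5 + ε) := by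
  classical
  obtain ⟨q₀, hq₀⟩ := densj D j hj1 hj hD
  have hD2 : 2 ≤ D := by omega
  obtain ⟨N, hN⟩ : ∃ N, N = l + k := ⟨_, rfl⟩
  obtain ⟨φ⟩ : Nonempty ((Fin l ⊕ Fin k) ≃ Fin N) := by
    rw [hN]
    exact ⟨finSumFinEquiv⟩
  have hN1 : 1 ≤ N := by omega
  have hη : (0 : ℝ) < 1 / (2 * D) := by
    have : (2 : ℝ) ≤ D := by exact_mod_cast hD2
    positivity
  have hη1 : (1 : ℝ) / (2 * D) ≤ 1 := by
    have : (2 : ℝ) ≤ D := by exact_mod_cast hD2
    rw [div_le_one (by positivity)]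
    linarith
  -- solutions in `ℙ(O ⊕ L)` and in `L`
  have hpt : ∀ (K : Type) [Field K] (V : Fin r → Fin 3 → K) (c : Fin N → K),
      (∃ x : Fin 2 → K, x ≠ 0 ∧ val (upolj j s F φ) V c x = 0) → ∃ w, evj j s F V (fun m => c (φ m)) w = 0 := by
    rintro K _ V c ⟨x, hx, h0⟩
    rw [val_upolj] at h0
    have hx0 : x 0 ≠ 0 := by
      intro h
      apply hx
      have h1 : x 1 ^ D = 0 := by
        rw [h] at h0
        simpa [zero_pow (show D - j ≠ 0 by omega)] using h0
      have h2 : x 1 = 0 := by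
        by_contra h3
        exact pow_ne_zero _ h3 h1
      funext t
      fin_cases t
      · exact h
      · exact h2
    refine ⟨x 1 / x 0, ?_⟩
    have h3 : x 0 ^ D * evj j s F V (fun m => c (φ m)) (x 1 / x 0) = 0 := by
      refine Eq.trans ?_ h0
      unfold evj
      rw [mul_add, mul_add, div_pow, mul_div_cancel₀ _ (pow_ne_zero _ hx0), Finset.mul_sum, Finset.sum_mul,
        Finset.mul_sum]
      congr 1
      · congr 1
        refine Finset.sum_congr rfl fun i _ => ?_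
        have hi := i.2
        have e1 : x 0 ^ D = x 0 ^ (D - 1 - (i : ℕ)) * x 0 ^ ((i : ℕ) + 1) := by
          rw [← pow_add]
          congr 1
          omega
        rw [e1, div_pow]
        have := pow_ne_zero (D - 1 - (i : ℕ)) hx0
        field_simp
      · refine Finset.sum_congr rfl fun n _ => ?_
        have e1 : x 0 ^ D = x 0 ^ j * x 0 ^ (D - j) := by
          rw [← pow_add]
          congr 1
          omega
        rw [e1, div_pow]
        have := pow_ne_zero j hx0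
        field_simp
    rcases mul_eq_zero.1 h3 with h4 | h4
    · exact absurd h4 (pow_ne_zero _ hx0)
    · exact h4
  have hpt' : ∀ (K : Type) [Field K] (V : Fin r → Fin 3 → K) (c : Fin N → K) (w : K),
      evj j s F V (fun m => c (φ m)) w = 0 → val (upolj j s F φ) V c ![1, w] = 0 := by
    intro K _ V c w h
    rw [val_upolj]
    simpa [evj, Finset.sum_mul] using h
  obtain ⟨D₁, hD₁⟩ : ∃ D₁ : ℕ, D₁ = D₀ * (max q₀ D).factorial := ⟨_, rfl⟩
  have hdvd : ∀ p : ℕ, ¬ p ∣ D₁ → ¬ p ∣ D₀ := fun p h h' => h (by rw [hD₁]; exact h'.mul_right _)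
  obtain ⟨C, hC⟩ := general2 r N 1 hN1 a b M D₁ hM (by rw [hD₁]; exact Nat.mul_pos hD₀ (Nat.factorial_pos _)) hdisc
    (fun i p hp h1 h2 => hss i p hp (hdvd p h1) h2)
    (kap e) Unit (fun _ => upolj j s F φ) (fun _ => (fun n => D * e n, D)) (fun _ => homog_upolj j e s F φ hj.le hs hF)
    (1 / (2 * D)) hη hη1 (by
      intro p hp hpD hMp V hV
      have hpmax : max q₀ D < p := by
        by_contra hlt
        push Not at hlt
        apply hpD
        rw [hD₁]
        exact (Nat.dvd_factorial hp.out.pos hlt).mul_left _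
      have hDp : ((D - j : ℕ) : ZMod p) ≠ 0 := by
        intro h
        rw [ZMod.natCast_eq_zero_iff] at h
        have := Nat.le_of_dvd (by omega) h
        have := le_max_right q₀ D
        omega
      have hqp : q₀ ≤ Fintype.card (ZMod p) := by
        rw [ZMod.card]
        have := le_max_left q₀ D
        omega
      have h1 := hq₀ (ZMod p) hqp hDp r l k s F V (hF0 p (hdvd p hpD) hMp V hV)
        (hS0 p (hdvd p hpD) hMp V hV)
      rw [ZMod.card, ← hN] at h1
      refine le_trans ?_ h1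
      have h2 : {c : Fin N → ZMod p | ∃ x : Fin 2 → ZMod p, x ≠ 0 ∧ ∀ _ : Unit, val (upolj j s F φ) V c x = 0} ⊆
          (fun c : Fin l ⊕ Fin k → ZMod p => fun k => c (φ.symm k)) ''
          {c | ∃ w, evj j s F V c w = 0} := by
        rintro c ⟨x, hx, h0⟩
        refine ⟨fun m => c (φ m), hpt _ V c ⟨x, hx, h0 ()⟩, ?_⟩
        funext k
        simp
      have h3 := Set.ncard_le_ncard h2 (Set.toFinite _)
      have h4 := Set.ncard_image_of_injective (f := fun c : Fin l ⊕ Fin k → ZMod p => fun k => c (φ.symm k))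
        {c | ∃ w, evj j s F V c w = 0} (by
          intro c c' h
          funext m
          have := congrFun h (φ m)
          simpa using this)
      rw [h4] at h3
      exact_mod_cast h3) ε hε
  refine ⟨C, fun H hH => ?_⟩
  have h3 := hC H hH
  have hNr : (N : ℝ) = l + k := by
    rw [hN]
    push_cast
    rfl
  rw [hNr] at h3
  refine le_trans ?_ h3
  have hfin : {c : Fin N → ℤ | (∀ k, |c k| ≤ H) ∧ ∃ (V : Fin r → Fin 3 → ℚ) (x : Fin 2 → ℚ),
        (∀ i, FD.OnE (a i) (b i) (V i)) ∧ x ≠ 0 ∧ ∀ _ : Unit, val (upolj j s F φ) V (fun k => (c k : ℚ)) x = 0}.Finite := by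
    have : {c : Fin N → ℤ | ∀ j, c j ∈ Set.Icc (-(H : ℤ)) (H : ℤ)}.Finite :=
      Set.Finite.pi' fun _ => Set.finite_Icc _ _
    apply Set.Finite.subset this
    rintro c ⟨hc, -⟩ j
    exact ⟨(abs_le.1 (hc j)).1, (abs_le.1 (hc j)).2⟩
  have h2 : (fun c : Fin l ⊕ Fin k → ℤ => fun k => c (φ.symm k)) ''
      {c : Fin l ⊕ Fin k → ℤ | (∀ m, |c m| ≤ H) ∧
        ∃ (V : Fin r → Fin 3 → ℚ) (w : ℚ), (∀ i, FD.OnE (a i) (b i) (V i)) ∧
          evj j s F V (fun m => (c m : ℚ)) w = 0} ⊆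
      {c : Fin N → ℤ | (∀ k, |c k| ≤ H) ∧ ∃ (V : Fin r → Fin 3 → ℚ) (x : Fin 2 → ℚ),
        (∀ i, FD.OnE (a i) (b i) (V i)) ∧ x ≠ 0 ∧ ∀ _ : Unit, val (upolj j s F φ) V (fun k => (c k : ℚ)) x = 0} := by
    rintro c ⟨c', ⟨hc, V, w, hV, h0⟩, rfl⟩
    refine ⟨fun k => hc _, V, ![1, w], hV, ?_, fun _ => ?_⟩
    · intro h
      have := congrFun h 0
      simp at this
    · apply hpt'
      simpa using h0
  have h4 := Set.ncard_le_ncard h2 hfin
  rw [Set.ncard_image_of_injective] at h4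
  · exact_mod_cast h4
  · intro c c' h
    funext m
    have := congrFun h (φ m)
    simpa using this

end Pool.Agent.Helper3K9.EV
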