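import Pool.Agent.Helper3K9.EV.Main3

set_option autoImplicit false

/-! Curves with `j = 0` or `1728`; one-parameter families. -/

namespace Pool.Agent.Helper3K9.EV

open MvPolynomial Pool.Agent.W659 Pool.Agent.Helper3K9.CI

theorem even_covers_cm (r D l k : ℕ) (hD2 : 2 ≤ D) (hD : Even D) (hk : 1 ≤ k) (a b : Fin r → ℤ)
    (hab : ∀ i, a i * b i = 0 ∧ (a i ≠ 0 ∨ b i ≠ 0))
    (e : Fin r → ℕ) (s : Fin D → MvPolynomial ((Fin r × Fin 3) ⊕ Fin l) ℤ)
    (hs : ∀ i, ∀ m ∈ (s i).support, ∀ n, ∑ j, m (Sum.inl (n, j)) = ((i : ℕ) + 1) * e n)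
    (F : Fin k → MvPolynomial (Fin r × Fin 3) ℤ)
    (hF : ∀ j, ∀ m ∈ (F j).support, ∀ n, ∑ i, m (n, i) = D * e n) (M : ℕ) (hM : 1 ≤ M)
    (hF0 : ∃ p₁ : ℕ, ∀ (p : ℕ) [Fact p.Prime], p₁ ≤ p → M ∣ p + 1 → ∀ V : Fin r → Fin 3 → ZMod p,
      (∀ i, FD.OnE (a i) (b i) (V i)) → ∃ j, aeval (fun ij : Fin r × Fin 3 => V ij.1 ij.2) (F j) ≠ 0)
    (ε : ℝ) (hε : 0 < ε) :
    ∃ C : ℝ, ∀ H : ℕ, 1 ≤ H →
      (({c : Fin l ⊕ Fin k → ℤ | (∀ m, |c m| ≤ H) ∧
        ∃ (V : Fin r → Fin 3 → ℚ) (w : ℚ), (∀ i, FD.OnE (a i) (b i) (V i)) ∧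
          evc s F V (fun m => (c m : ℚ)) w = 0}.ncard : ℕ) : ℝ) ≤
        C * (H : ℝ) ^ ((l : ℝ) + k - 1 / 5 + ε) := by
  obtain ⟨p₁, hp₁⟩ := hF0
  refine even_covers r D l k hD2 hD hk a b (12 * M) p₁.factorial (by omega) (Nat.factorial_pos _) ?_ ?_
    e s hs F hF ?_ ε hε
  · intro i h
    obtain ⟨h1, h2⟩ := hab i
    rcases mul_eq_zero.1 h1 with h3 | h3
    · rw [h3] at h h2
      have h4 : (b i) ^ 2 = 0 := by linarith
      rcases h2 with h2 | h2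
      · exact h2 rfl
      · exact h2 (pow_eq_zero_iff two_ne_zero |>.1 h4)
    · rw [h3] at h h2
      have h4 : (a i) ^ 3 = 0 := by linarith
      rcases h2 with h2 | h2
      · exact h2 (pow_eq_zero_iff three_ne_zero |>.1 h4)
      · exact h2 rfl
  · intro i p hp _ h12
    exact Pool.Agent.H35R6.DCCNT.cnt p (a i) (b i) hp ((dvd_mul_right 12 M).trans h12) (hab i).1
  · intro p hp hpD h12 V hV
    refine hp₁ p ?_ ((dvd_mul_left M 12).trans h12) V hV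
    by_contra hlt
    push Not at hlt
    exact hpD (Nat.dvd_factorial hp.out.pos hlt.le)

/-- the form `∏ (V_{i1}² + V_{i2}²) ^ {d e_i}` -/
noncomputable def sqf {r : ℕ} (d : ℕ) (e : Fin r → ℕ) : MvPolynomial (Fin r × Fin 3) ℤ :=
  ∏ i, (X (i, 1) ^ 2 + X (i, 2) ^ 2) ^ (d * e i)

theorem aeval_sqf {A : Type} [CommRing A] {r : ℕ} (d : ℕ) (e : Fin r → ℕ) (V : Fin r → Fin 3 → A) :
    aeval (fun ij : Fin r × Fin 3 => V ij.1 ij.2) (sqf d e) = ∏ i, (V i 1 ^ 2 + V i 2 ^ 2) ^ (d * e i) := by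
  unfold sqf
  simp

/-- the weights of the multidegree -/
def wv (r : ℕ) : Fin r × Fin 3 → (Fin r → ℕ) := fun ij => Pi.single ij.1 1

theorem weight_wv {r : ℕ} (m : (Fin r × Fin 3) →₀ ℕ) (n : Fin r) :
    (Finsupp.weight (wv r) m) n = ∑ i, m (n, i) := by
  rw [Finsupp.weight_apply, Finsupp.sum_fintype _ _ (by simp), Finset.sum_apply, Fintype.sum_prod_type,
    Finset.sum_eq_single n]
  · simp [wv]
  · intro l _ hl
    apply Finset.sum_eq_zero
    intro j _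
    simp [wv, Pi.single_eq_of_ne (Ne.symm hl)]
  · simp

theorem homog_sqf {r : ℕ} (d : ℕ) (e : Fin r → ℕ) (m : (Fin r × Fin 3) →₀ ℕ)
    (hm : m ∈ (sqf d e).support) (n : Fin r) : ∑ i, m (n, i) = 2 * d * e n := by
  have h : (sqf d e).IsWeightedHomogeneous (wv r) (∑ i, (d * e i) • (Pi.single i 2 : Fin r → ℕ)) := by
    unfold sqf
    refine IsWeightedHomogeneous.prod _ _ _ fun i _ => IsWeightedHomogeneous.pow ?_ _
    have h1 : (X (i, 1) : MvPolynomial (Fin r × Fin 3) ℤ).IsWeightedHomogeneous (wv r) (Pi.single i 1) :=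
      isWeightedHomogeneous_X _ _ _
    have h2 : (X (i, 2) : MvPolynomial (Fin r × Fin 3) ℤ).IsWeightedHomogeneous (wv r) (Pi.single i 1) :=
      isWeightedHomogeneous_X _ _ _
    have h3 : (2 • (Pi.single i 1 : Fin r → ℕ)) = Pi.single i 2 := by
      ext j
      by_cases hj : j = i
      · rw [hj]
        simp
      · simp [Pi.single_eq_of_ne hj]
    rw [← h3]
    exact (h1.pow 2).add (h2.pow 2)
  have h4 := congrFun (h (mem_support_iff.1 hm)) n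
  rw [weight_wv] at h4
  rw [h4, Finset.sum_apply, Finset.sum_eq_single n]
  · simp only [Pi.smul_apply, Pi.single_eq_same, smul_eq_mul]
    ring
  · intro l _ hl
    simp [Pi.single_eq_of_ne (Ne.symm hl)]
  · simp

theorem one_parameter (r d : ℕ) (hd : 1 ≤ d) (a b : Fin r → ℤ)
    (hab : ∀ i, a i * b i = 0 ∧ (a i ≠ 0 ∨ b i ≠ 0))
    (e : Fin r → ℕ) (s : Fin (2 * d) → MvPolynomial (Fin r × Fin 3) ℤ)
    (hs : ∀ i, ∀ m ∈ (s i).support, ∀ n, ∑ j, m (n, j) = ((i : ℕ) + 1) * e n) (ε : ℝ) (hε : 0 < ε) :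
    ∃ C : ℝ, ∀ H : ℕ, 1 ≤ H →
      (({t : ℤ | |t| ≤ H ∧ ∃ (V : Fin r → Fin 3 → ℚ) (w : ℚ), (∀ i, FD.OnE (a i) (b i) (V i)) ∧
          w ^ (2 * d) + ∑ i : Fin (2 * d), aeval (fun ij : Fin r × Fin 3 => V ij.1 ij.2) (s i) *
            w ^ (2 * d - 1 - (i : ℕ)) + t * ∏ i, (V i 1 ^ 2 + V i 2 ^ 2) ^ (d * e i) = 0}.ncard : ℕ) : ℝ) ≤
        C * (H : ℝ) ^ (4 / 5 + ε) := by
  classical
  obtain ⟨C, hC⟩ := even_covers_cm r (2 * d) 0 1 (by omega) (even_two_mul d) le_rfl a b hab e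
    (fun i => rename Sum.inl (s i)) (by
      intro i m hm n
      obtain ⟨m', hm', hm'2⟩ := coeff_rename_ne_zero _ _ _ (mem_support_iff.1 hm)
      rw [← hm', ← hs i m' (mem_support_iff.2 hm'2) n]
      apply Finset.sum_congr rfl
      intro j _
      exact Finsupp.mapDomain_apply Sum.inl_injective _ _)
    (fun _ => sqf d e) (fun _ => homog_sqf d e) 4 (by norm_num) ⟨0, by
      intro p hp _ h4 V hV
      refine ⟨0, ?_⟩
      rw [aeval_sqf, Finset.prod_ne_zero_iff]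
      intro i _
      apply pow_ne_zero
      intro h0
      have hns : ¬ IsSquare (-1 : ZMod p) := by
        rw [ZMod.exists_sq_eq_neg_one_iff]
        push Not
        omega
      have h2 : V i 2 = 0 := by
        by_contra h2
        apply hns
        refine ⟨V i 1 / V i 2, ?_⟩
        field_simp
        linear_combination -h0
      have h1 : V i 1 = 0 := by
        rw [h2] at h0
        simpa using h0
      have hE := (hV i).2
      have h3 : V i 0 = 0 := by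
        rw [h1, h2] at hE
        simp only [ne_eq, OfNat.ofNat_ne_zero, not_false_eq_true, zero_pow, mul_zero, add_zero] at hE
        exact (pow_eq_zero_iff three_ne_zero).1 hE.symm
      apply (hV i).1
      funext j
      fin_cases j
      · exact h3
      · exact h1
      · exact h2⟩ ε hε
  refine ⟨C, fun H hH => ?_⟩
  have h := hC H hH
  have he : ((0 : ℕ) : ℝ) + (1 : ℕ) - 1 / 5 + ε = 4 / 5 + ε := by
    push_cast
    ring
  rw [he] at h
  refine le_trans ?_ h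
  have hfin : {c : Fin 0 ⊕ Fin 1 → ℤ | (∀ m, |c m| ≤ H) ∧
        ∃ (V : Fin r → Fin 3 → ℚ) (w : ℚ), (∀ i, FD.OnE (a i) (b i) (V i)) ∧
          evc (fun i => rename Sum.inl (s i)) (fun _ => sqf d e) V (fun m => (c m : ℚ)) w = 0}.Finite := by
    have : {c : Fin 0 ⊕ Fin 1 → ℤ | ∀ j, c j ∈ Set.Icc (-(H : ℤ)) (H : ℤ)}.Finite :=
      Set.Finite.pi' fun _ => Set.finite_Icc _ _
    apply Set.Finite.subset this
    rintro c ⟨hc, -⟩ j
    exact ⟨(abs_le.1 (hc j)).1, (abs_le.1 (hc j)).2⟩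
  have hsub : (fun t : ℤ => (fun _ => t : Fin 0 ⊕ Fin 1 → ℤ)) ''
      {t : ℤ | |t| ≤ H ∧ ∃ (V : Fin r → Fin 3 → ℚ) (w : ℚ), (∀ i, FD.OnE (a i) (b i) (V i)) ∧
          w ^ (2 * d) + ∑ i : Fin (2 * d), aeval (fun ij : Fin r × Fin 3 => V ij.1 ij.2) (s i) *
            w ^ (2 * d - 1 - (i : ℕ)) + t * ∏ i, (V i 1 ^ 2 + V i 2 ^ 2) ^ (d * e i) = 0} ⊆
      {c : Fin 0 ⊕ Fin 1 → ℤ | (∀ m, |c m| ≤ H) ∧
        ∃ (V : Fin r → Fin 3 → ℚ) (w : ℚ), (∀ i, FD.OnE (a i) (b i) (V i)) ∧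
          evc (fun i => rename Sum.inl (s i)) (fun _ => sqf d e) V (fun m => (c m : ℚ)) w = 0} := by
    rintro c ⟨t, ⟨ht, V, w, hV, h0⟩, rfl⟩
    refine ⟨fun _ => ht, V, w, hV, ?_⟩
    rw [← h0]
    unfold evc
    simp only [aeval_rename, Finset.univ_unique, Finset.sum_singleton, aeval_sqf]
    rfl
  have h4 := Set.ncard_le_ncard hsub hfin
  rw [Set.ncard_image_of_injective] at h4
  · exact_mod_cast h4
  · intro t t' h
    exact congrFun h (Sum.inr 0)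

end Pool.Agent.Helper3K9.EV
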