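import Pool.Agent.Helper3K9.EV.MainJ
import Pool.Agent.Helper3K9.EV.One

set_option autoImplicit false

/-! Curves with `j = 0` or `1728`; one-parameter families of covers of any degree. -/

namespace Pool.Agent.Helper3K9.EV

open MvPolynomial Pool.Agent.W659 Pool.Agent.Helper3K9.CI

theorem middle_covers_cm (r D j l k : ℕ) (hj1 : 1 ≤ j) (hj : j < D) (hD : Even (D - j)) (hk : 1 ≤ k)
    (a b : Fin r → ℤ) (hab : ∀ i, a i * b i = 0 ∧ (a i ≠ 0 ∨ b i ≠ 0))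
    (e : Fin r → ℕ) (s : Fin D → MvPolynomial ((Fin r × Fin 3) ⊕ Fin l) ℤ)
    (hs : ∀ i, ∀ m ∈ (s i).support, ∀ n, ∑ q, m (Sum.inl (n, q)) = ((i : ℕ) + 1) * e n)
    (F : Fin k → MvPolynomial (Fin r × Fin 3) ℤ)
    (hF : ∀ q, ∀ m ∈ (F q).support, ∀ n, ∑ i, m (n, i) = (D - j) * e n) (M : ℕ) (hM : 1 ≤ M)
    (h0 : ∃ p₁ : ℕ, ∀ (p : ℕ) [Fact p.Prime], p₁ ≤ p → M ∣ p + 1 → ∀ V : Fin r → Fin 3 → ZMod p,
      (∀ i, FD.OnE (a i) (b i) (V i)) → (∃ q, aeval (fun ij : Fin r × Fin 3 => V ij.1 ij.2) (F q) ≠ 0) ∧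
      ∀ i : Fin D, (i : ℕ) + 1 = D → ∀ u : Fin l → ZMod p,
        aeval (Sum.elim (fun ij : Fin r × Fin 3 => V ij.1 ij.2) u) (s i) ≠ 0)
    (ε : ℝ) (hε : 0 < ε) :
    ∃ C : ℝ, ∀ H : ℕ, 1 ≤ H →
      (({c : Fin l ⊕ Fin k → ℤ | (∀ m, |c m| ≤ H) ∧
        ∃ (V : Fin r → Fin 3 → ℚ) (w : ℚ), (∀ i, FD.OnE (a i) (b i) (V i)) ∧
          evj j s F V (fun m => (c m : ℚ)) w = 0}.ncard : ℕ) : ℝ) ≤
        C * (H : ℝ) ^ ((l : ℝ) + k - 1 / 5 + ε) := by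
  obtain ⟨p₁, hp₁⟩ := h0
  have hp2 : ∀ (p : ℕ) [Fact p.Prime], ¬ p ∣ p₁.factorial → 12 * M ∣ p + 1 → ∀ V : Fin r → Fin 3 → ZMod p,
      (∀ i, FD.OnE (a i) (b i) (V i)) → (∃ q, aeval (fun ij : Fin r × Fin 3 => V ij.1 ij.2) (F q) ≠ 0) ∧
      ∀ i : Fin D, (i : ℕ) + 1 = D → ∀ u : Fin l → ZMod p,
        aeval (Sum.elim (fun ij : Fin r × Fin 3 => V ij.1 ij.2) u) (s i) ≠ 0 := by
    intro p hp hpD h12 V hV
    refine hp₁ p ?_ ((dvd_mul_left M 12).trans h12) V hV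
    by_contra hlt
    push Not at hlt
    exact hpD (Nat.dvd_factorial hp.out.pos hlt.le)
  refine middle_covers r D j l k hj1 hj hD hk a b (12 * M) p₁.factorial (by omega) (Nat.factorial_pos _) ?_ ?_
    e s hs F hF (fun p hp h1 h2 V hV => (@hp2 p hp h1 h2 V hV).1) (fun p hp h1 h2 V hV => (@hp2 p hp h1 h2 V hV).2)
    ε hε
  · intro i h
    obtain ⟨h1, h2⟩ := hab i
    rcases mul_eq_zero.1 h1 with h3 | h3
    · rw [h3] at h h2
      have h4 : (b i) ^ 2 = 0 := by linarith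
      rcases h2 with h2 | h2
      · exact h2 rfl
      · exact h2 (pow_eq_zero_iff two_ne_zero |>.1 h4)
    · rw [h3] at h h2
      have h4 : (a i) ^ 3 = 0 := by linarith
      rcases h2 with h2 | h2
      · exact h2 (pow_eq_zero_iff three_ne_zero |>.1 h4)
      · exact h2 rfl
  · intro i p hp _ h12
    exact Pool.Agent.H35R6.DCCNT.cnt p (a i) (b i) hp ((dvd_mul_right 12 M).trans h12) (hab i).1

/-- the form `sqf` has no zero modulo `p ≡ -1 mod 4` -/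
theorem sqf_ne {p : ℕ} [Fact p.Prime] (h4 : 4 ∣ p + 1) {r : ℕ} (d : ℕ) (e : Fin r → ℕ) (a b : Fin r → ℤ)
    (V : Fin r → Fin 3 → ZMod p) (hV : ∀ i, FD.OnE (a i) (b i) (V i)) :
    ∏ i, (V i 1 ^ 2 + V i 2 ^ 2) ^ (d * e i) ≠ 0 := by
  rw [Finset.prod_ne_zero_iff]
  intro i _
  apply pow_ne_zero
  intro h0
  have hns : ¬ IsSquare (-1 : ZMod p) := by
    rw [ZMod.exists_sq_eq_neg_one_iff]
    push Not
    omega
  have h2 : V i 2 = 0 := by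
    by_contra h2
    apply hns
    refine ⟨V i 1 / V i 2, ?_⟩
    field_simp
    linear_combination -h0
  have h1 : V i 1 = 0 := by
    rw [h2] at h0
    simpa using h0
  have hE := (hV i).2
  have h3 : V i 0 = 0 := by
    rw [h1, h2] at hE
    simp only [ne_eq, OfNat.ofNat_ne_zero, not_false_eq_true, zero_pow, mul_zero, add_zero] at hE
    exact (pow_eq_zero_iff three_ne_zero).1 hE.symm
  apply (hV i).1
  funext j
  fin_cases j
  · exact h3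
  · exact h1
  · exact h2

theorem one_parameter_j (r D j : ℕ) (hj1 : 1 ≤ j) (hj : j < D) (hD : Even (D - j)) (a b : Fin r → ℤ)
    (hab : ∀ i, a i * b i = 0 ∧ (a i ≠ 0 ∨ b i ≠ 0))
    (e : Fin r → ℕ) (s : Fin D → MvPolynomial (Fin r × Fin 3) ℤ)
    (hs : ∀ i, ∀ m ∈ (s i).support, ∀ n, ∑ q, m (n, q) = ((i : ℕ) + 1) * (2 * e n)) (ε : ℝ) (hε : 0 < ε) :
    ∃ C : ℝ, ∀ H : ℕ, 1 ≤ H →
      (({t : ℤ | |t| ≤ H ∧ ∃ (V : Fin r → Fin 3 → ℚ) (w : ℚ), (∀ i, FD.OnE (a i) (b i) (V i)) ∧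
          w ^ D + ∑ i : Fin D, (if (i : ℕ) + 1 = D then ∏ i, (V i 1 ^ 2 + V i 2 ^ 2) ^ (D * e i) else
              aeval (fun ij : Fin r × Fin 3 => V ij.1 ij.2) (s i)) * w ^ (D - 1 - (i : ℕ)) +
            t * (∏ i, (V i 1 ^ 2 + V i 2 ^ 2) ^ ((D - j) * e i)) * w ^ j = 0}.ncard : ℕ) : ℝ) ≤
        C * (H : ℝ) ^ (4 / 5 + ε) := by
  classical
  obtain ⟨s', hs'⟩ : ∃ s' : Fin D → MvPolynomial (Fin r × Fin 3) ℤ, s' = fun i : Fin D =>
      if (i : ℕ) + 1 = D then sqf D e else s i := ⟨_, rfl⟩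
  have hs2 : ∀ i, ∀ m ∈ (s' i).support, ∀ n, ∑ q, m (n, q) = ((i : ℕ) + 1) * (2 * e n) := by
    intro i m hm n
    rw [hs'] at hm
    simp only at hm
    split_ifs at hm with h
    · rw [homog_sqf D e m hm n, h]
      ring
    · exact hs i m hm n
  obtain ⟨C, hC⟩ := middle_covers_cm r D j 0 1 hj1 hj hD le_rfl a b hab (fun n => 2 * e n)
    (fun i => rename Sum.inl (s' i)) (by
      intro i m hm n
      obtain ⟨m', hm', hm'2⟩ := coeff_rename_ne_zero _ _ _ (mem_support_iff.1 hm)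
      rw [← hm', ← hs2 i m' (mem_support_iff.2 hm'2) n]
      apply Finset.sum_congr rfl
      intro j _
      exact Finsupp.mapDomain_apply Sum.inl_injective _ _)
    (fun _ => sqf (D - j) e) (fun _ m hm n => by
      rw [homog_sqf (D - j) e m hm n]
      ring) 4 (by norm_num) ⟨0, by
      intro p hp _ h4 V hV
      refine ⟨⟨0, ?_⟩, ?_⟩
      · rw [aeval_sqf]
        exact sqf_ne h4 _ _ a b V hV
      · intro i hi u
        rw [aeval_rename, hs']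
        simp only [if_pos hi]
        rw [show (Sum.elim (fun ij : Fin r × Fin 3 => V ij.1 ij.2) u) ∘ Sum.inl =
          fun ij : Fin r × Fin 3 => V ij.1 ij.2 from rfl, aeval_sqf]
        exact sqf_ne h4 _ _ a b V hV⟩ ε hε
  refine ⟨C, fun H hH => ?_⟩
  have h := hC H hH
  have he : ((0 : ℕ) : ℝ) + (1 : ℕ) - 1 / 5 + ε = 4 / 5 + ε := by
    push_cast
    ring
  rw [he] at h
  refine le_trans ?_ h
  have hfin : {c : Fin 0 ⊕ Fin 1 → ℤ | (∀ m, |c m| ≤ H) ∧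
        ∃ (V : Fin r → Fin 3 → ℚ) (w : ℚ), (∀ i, FD.OnE (a i) (b i) (V i)) ∧
          evj j (fun i => rename Sum.inl (s' i)) (fun _ => sqf (D - j) e) V (fun m => (c m : ℚ)) w = 0}.Finite := by
    have : {c : Fin 0 ⊕ Fin 1 → ℤ | ∀ j, c j ∈ Set.Icc (-(H : ℤ)) (H : ℤ)}.Finite :=
      Set.Finite.pi' fun _ => Set.finite_Icc _ _
    apply Set.Finite.subset this
    rintro c ⟨hc, -⟩ j
    exact ⟨(abs_le.1 (hc j)).1, (abs_le.1 (hc j)).2⟩
  have hsub : (fun t : ℤ => (fun _ => t : Fin 0 ⊕ Fin 1 → ℤ)) ''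
      {t : ℤ | |t| ≤ H ∧ ∃ (V : Fin r → Fin 3 → ℚ) (w : ℚ), (∀ i, FD.OnE (a i) (b i) (V i)) ∧
          w ^ D + ∑ i : Fin D, (if (i : ℕ) + 1 = D then ∏ i, (V i 1 ^ 2 + V i 2 ^ 2) ^ (D * e i) else
              aeval (fun ij : Fin r × Fin 3 => V ij.1 ij.2) (s i)) * w ^ (D - 1 - (i : ℕ)) +
            t * (∏ i, (V i 1 ^ 2 + V i 2 ^ 2) ^ ((D - j) * e i)) * w ^ j = 0} ⊆
      {c : Fin 0 ⊕ Fin 1 → ℤ | (∀ m, |c m| ≤ H) ∧
        ∃ (V : Fin r → Fin 3 → ℚ) (w : ℚ), (∀ i, FD.OnE (a i) (b i) (V i)) ∧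
          evj j (fun i => rename Sum.inl (s' i)) (fun _ => sqf (D - j) e) V (fun m => (c m : ℚ)) w = 0} := by
    rintro c ⟨t, ⟨ht, V, w, hV, h0⟩, rfl⟩
    refine ⟨fun _ => ht, V, w, hV, ?_⟩
    rw [← h0]
    unfold evj
    simp only [aeval_rename, Finset.univ_unique, Finset.sum_singleton, aeval_sqf]
    congr 1
    congr 1
    refine Finset.sum_congr rfl fun i _ => ?_
    congr 1
    rw [hs']
    simp only
    split_ifs with hi
    · exact aeval_sqf D e V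
    · rfl
  have h4 := Set.ncard_le_ncard hsub hfin
  rw [Set.ncard_image_of_injective] at h4
  · exact_mod_cast h4
  · intro t t' h
    exact congrFun h (Sum.inr 0)

end Pool.Agent.Helper3K9.EV
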