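import Mathlib

set_option autoImplicit false

/-! Resultants and degrees for bivariate polynomials. -/

namespace Pool.Agent.Helper3K9.EV

open Polynomial

theorem natDegree_det_le {F : Type} [Field F] {N d : ℕ} (M : Matrix (Fin N) (Fin N) F[X])
    (h : ∀ i j, (M i j).natDegree ≤ d) : M.det.natDegree ≤ N * d := by
  rw [Matrix.det_apply]
  apply natDegree_sum_le_of_forall_le
  intro σ _
  refine (natDegree_smul_le _ _).trans ?_
  refine (natDegree_prod_le _ _).trans ?_
  refine (Finset.sum_le_sum fun i _ => h (σ i) i).trans ?_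
  simp

theorem exists_AB {F : Type} [Field F] {Φ : F[X][X]} (hΦ : Φ.Monic) (hirr : Irreducible Φ)
    (hd' : derivative Φ ≠ 0) {d : ℕ} (hd : ∀ i, (Φ.coeff i).natDegree ≤ d) :
    ∃ (A B : F[X][X]) (D : F[X]), A * Φ + B * derivative Φ = C D ∧ D ≠ 0 ∧
      D.natDegree ≤ 2 * Φ.natDegree * d := by
  have hm : Φ.natDegree ≠ 0 := by
    intro h0
    have := eq_one_of_monic_natDegree_zero hΦ h0
    exact hirr.not_isUnit (this ▸ isUnit_one)
  have hlt : (derivative Φ).natDegree < Φ.natDegree := natDegree_derivative_lt hm
  obtain ⟨A, B, _, _, h⟩ := exists_mul_add_mul_eq_C_resultant (m := Φ.natDegree)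
    (n := (derivative Φ).natDegree) Φ (derivative Φ) le_rfl le_rfl (Or.inl hm)
  refine ⟨A, B, Φ.resultant (derivative Φ) Φ.natDegree (derivative Φ).natDegree, ?_, ?_, ?_⟩
  · rw [← h]
    ring
  · intro h0
    obtain ⟨φ, hφ⟩ : ∃ φ : F[X] →+* RatFunc F, φ = algebraMap F[X] (RatFunc F) := ⟨_, rfl⟩
    have hinj : Function.Injective φ := by
      rw [hφ]
      exact IsFractionRing.injective F[X] (RatFunc F)
    have h1 : resultant (Φ.map φ) ((derivative Φ).map φ) = 0 := by
      rw [natDegree_map_eq_of_injective hinj, natDegree_map_eq_of_injective hinj, resultant_map_map, h0,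
        map_zero]
    rw [resultant_eq_zero_iff] at h1
    apply h1.2
    have hirrK : Irreducible (Φ.map φ) := by
      rw [hφ]
      exact (hΦ.irreducible_iff_irreducible_map_fraction_map (K := RatFunc F)).1 hirr
    rw [hirrK.coprime_iff_not_dvd]
    intro h2
    have h3 : (derivative Φ).map φ ≠ 0 := by
      rw [Ne, Polynomial.map_eq_zero_iff hinj]
      exact hd'
    have h4 := natDegree_le_of_dvd h2 h3
    rw [natDegree_map_eq_of_injective hinj, natDegree_map_eq_of_injective hinj] at h4
    omega
  · unfold resultant
    refine (natDegree_det_le (d := d) _ ?_).trans ?_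
    · intro i j
      have hd2 : ∀ i, ((derivative Φ).coeff i).natDegree ≤ d := by
        intro i
        rw [coeff_derivative]
        refine natDegree_mul_le.trans ?_
        have h5 : ((i : F[X]) + 1).natDegree = 0 := by
          have : ((i : F[X]) + 1) = C ((i : F) + 1) := by simp
          rw [this, natDegree_C]
        rw [h5, add_zero]
        exact hd _
      unfold sylvester
      rw [Matrix.of_apply]
      refine Fin.addCases (fun j₁ => ?_) (fun j₁ => ?_) j
      · rw [Fin.addCases_left]
        split_ifs
        · exact hd2 _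
        · simp
      · rw [Fin.addCases_right]
        split_ifs
        · exact hd _
        · simp
    · gcongr
      omega

theorem coeff_swap {R : Type} [CommRing R] (P : R[X][X]) (i j : ℕ) :
    ((Bivariate.swap P).coeff i).coeff j = (P.coeff j).coeff i := by
  induction P using Polynomial.induction_on' with
  | add p q hp hq => simp only [map_add, coeff_add, hp, hq]
  | monomial n a =>
    induction a using Polynomial.induction_on' with
    | add p q hp hq => simp only [map_add, coeff_add, hp, hq]
    | monomial m r =>
      rw [Bivariate.swap_monomial_monomial]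
      simp only [coeff_monomial]
      by_cases h1 : m = i
      · by_cases h2 : n = j
        · simp [h1, h2]
        · simp [h1, h2, coeff_monomial]
      · by_cases h2 : n = j
        · simp [h1, h2, coeff_monomial]
        · simp [h1, h2, coeff_monomial]

theorem coeff_natDegree_of_dvd {F : Type} [Field F] {G Φ : F[X][X]} (hG : G ≠ 0) (hdvd : Φ ∣ G) {d : ℕ}
    (hd : ∀ i, (G.coeff i).natDegree ≤ d) (i : ℕ) : (Φ.coeff i).natDegree ≤ d := by
  obtain ⟨R, hR⟩ := hdvd
  have h1 : (Bivariate.swap G).natDegree ≤ d := by
    rw [natDegree_le_iff_coeff_eq_zero]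
    intro j hj
    ext l
    rw [coeff_swap, coeff_zero]
    exact coeff_eq_zero_of_natDegree_lt (lt_of_le_of_lt (hd l) hj)
  have hΦ0 : Bivariate.swap Φ ≠ 0 := by
    intro h
    apply hG
    have : Φ = 0 := by
      apply Bivariate.swap.injective
      rw [h, map_zero]
    rw [hR, this, zero_mul]
  have hR0 : Bivariate.swap R ≠ 0 := by
    intro h
    apply hG
    have : R = 0 := by
      apply Bivariate.swap.injective
      rw [h, map_zero]
    rw [hR, this, mul_zero]
  have h2 : (Bivariate.swap Φ).natDegree ≤ d := by
    rw [hR, map_mul, natDegree_mul hΦ0 hR0] at h1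
    omega
  rw [natDegree_le_iff_coeff_eq_zero]
  intro j hj
  rw [← coeff_swap, coeff_eq_zero_of_natDegree_lt (lt_of_le_of_lt h2 hj), coeff_zero]

end Pool.Agent.Helper3K9.EV
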