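import Pool.Agent.Helper3K9.EV.AbsIrr
import Pool.Agent.Helper3K9.EV.Res
import Pool.Agent.R410.PW.Weil

set_option autoImplicit false

/-! The value set of a polynomial of even degree over a finite field. -/

namespace Pool.Agent.Helper3K9.EV

open Polynomial

section

variable {R : Type} [CommRing R]

/-- the coefficients of `Gs` -/
noncomputable def gc (Ψ : R[X]) (D j : ℕ) : R[X] := ∑ i ∈ Finset.Ioc j D, C (Ψ.coeff i) * X ^ (D - i)

/-- the curve `(Ψ(x) - Ψ(y)) / (x - y) = 0` in the coordinates `s = 1/x`, `z = y/x` -/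
noncomputable def Gs (Ψ : R[X]) (D : ℕ) : R[X][X] :=
  ∑ j ∈ Finset.range D, C (gc Ψ D j) * X ^ j

theorem coeff_Gs (Ψ : R[X]) (D j : ℕ) : (Gs Ψ D).coeff j = if j < D then gc Ψ D j else 0 := by
  unfold Gs
  rw [finsetSum_coeff]
  simp only [coeff_C_mul, coeff_X_pow, mul_ite, mul_one, mul_zero]
  rw [Finset.sum_ite_eq]
  simp

theorem natDegree_gc (Ψ : R[X]) (D j : ℕ) : (gc Ψ D j).natDegree ≤ D := by
  unfold gc
  apply natDegree_sum_le_of_forall_le
  intro i _
  refine (natDegree_C_mul_X_pow_le _ _).trans ?_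
  omega

theorem natDegree_coeff_Gs (Ψ : R[X]) (D j : ℕ) : ((Gs Ψ D).coeff j).natDegree ≤ D := by
  rw [coeff_Gs]
  split_ifs
  · exact natDegree_gc _ _ _
  · simp

theorem gc_top (Ψ : R[X]) (D : ℕ) (hD : 1 ≤ D) (hΨ : Ψ.coeff D = 1) : gc Ψ D (D - 1) = 1 := by
  unfold gc
  have : Finset.Ioc (D - 1) D = {D} := by
    ext i
    simp only [Finset.mem_Ioc, Finset.mem_singleton]
    omega
  rw [this, Finset.sum_singleton, hΨ]
  simp

theorem natDegree_Gs_lt (Ψ : R[X]) (D : ℕ) (hD : 1 ≤ D) : (Gs Ψ D).natDegree < D := by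
  have : (Gs Ψ D).natDegree ≤ D - 1 := by
    rw [natDegree_le_iff_coeff_eq_zero]
    intro j hj
    rw [coeff_Gs, if_neg (by omega)]
  omega

theorem monic_Gs (Ψ : R[X]) (D : ℕ) (hD : 1 ≤ D) (hΨ : Ψ.coeff D = 1) : (Gs Ψ D).Monic := by
  apply monic_of_natDegree_le_of_coeff_eq_one (D - 1)
  · have := natDegree_Gs_lt Ψ D hD
    omega
  · rw [coeff_Gs, if_pos (by omega), gc_top Ψ D hD hΨ]

theorem eval_Gs (Ψ : R[X]) (D : ℕ) (s z : R) :
    evalEval s z (Gs Ψ D) = ∑ i ∈ Finset.Ioc 0 D, Ψ.coeff i * s ^ (D - i) * ∑ j ∈ Finset.range i, z ^ j := by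
  unfold evalEval Gs gc
  simp only [eval_finsetSum, eval_mul, eval_C, eval_pow, eval_X, Finset.sum_mul, Finset.mul_sum]
  rw [Finset.sum_comm' (t' := Finset.Ioc 0 D) (s' := fun i => Finset.range i)]
  intro x y
  simp only [Finset.mem_range, Finset.mem_Ioc]
  omega

theorem mul_eval_Gs (Ψ : R[X]) (D : ℕ) (s z : R) :
    (1 - z) * evalEval s z (Gs Ψ D) = ∑ i ∈ Finset.range (D + 1), Ψ.coeff i * s ^ (D - i) * (1 - z ^ i) := by
  rw [eval_Gs, Finset.mul_sum]
  have h1 : Finset.range (D + 1) = insert 0 (Finset.Ioc 0 D) := by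
    ext i
    simp only [Finset.mem_range, Finset.mem_insert, Finset.mem_Ioc]
    omega
  rw [h1, Finset.sum_insert (by simp)]
  simp only [pow_zero, sub_self, mul_zero, zero_add]
  apply Finset.sum_congr rfl
  intro i _
  rw [← mul_neg_geom_sum]
  ring

theorem map_Gs_zero (Ψ : R[X]) (D : ℕ) (hΨ : Ψ.coeff D = 1) :
    (Gs Ψ D).map (evalRingHom 0) = ∑ j ∈ Finset.range D, X ^ j := by
  unfold Gs gc
  simp only [Polynomial.map_sum, Polynomial.map_mul, map_C, Polynomial.map_pow, map_X, coe_evalRingHom,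
    eval_finsetSum, eval_mul, eval_C, eval_pow, eval_X]
  apply Finset.sum_congr rfl
  intro j hj
  rw [Finset.mem_range] at hj
  rw [Finset.sum_eq_single D]
  · simp [hΨ]
  · intro i hi hiD
    rw [Finset.mem_Ioc] at hi
    rw [zero_pow (by omega), mul_zero]
  · intro h
    exact absurd (Finset.mem_Ioc.2 ⟨hj, le_rfl⟩) h

end

section

variable {F : Type} [Field F]

theorem eq_of_Gs {Ψ : F[X]} {D : ℕ} (hΨ : Ψ.natDegree ≤ D) {s z : F} (hs : s ≠ 0)
    (h : evalEval s z (Gs Ψ D) = 0) : Ψ.eval (1 / s) = Ψ.eval (z / s) := by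
  have h1 := mul_eval_Gs Ψ D s z
  rw [h, mul_zero] at h1
  have h2 : ∀ x : F, s ^ D * Ψ.eval (x / s) = ∑ i ∈ Finset.range (D + 1), Ψ.coeff i * s ^ (D - i) * x ^ i := by
    intro x
    rw [eval_eq_sum_range' (Nat.lt_succ_of_le hΨ), Finset.mul_sum]
    apply Finset.sum_congr rfl
    intro i hi
    rw [Finset.mem_range] at hi
    have h3 : s ^ D = s ^ (D - i) * s ^ i := by
      rw [← pow_add]
      congr 1
      omega
    rw [h3, div_pow]
    field_simp
  have h3 : s ^ D * Ψ.eval (1 / s) - s ^ D * Ψ.eval (z / s) = 0 := by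
    rw [h2, h2, ← Finset.sum_sub_distrib, h1]
    apply Finset.sum_congr rfl
    intro i _
    ring
  rw [← mul_sub, mul_eq_zero, sub_eq_zero] at h3
  rcases h3 with h3 | h3
  · exact absurd h3 (pow_ne_zero _ hs)
  · exact h3

theorem geom_neg_one {D : ℕ} (hD : Even D) (h2 : (2 : F) ≠ 0) :
    (∑ j ∈ Finset.range D, (X : F[X]) ^ j).eval (-1) = 0 := by
  have h := congrArg (eval (-1)) (mul_neg_geom_sum (X : F[X]) D)
  simp only [eval_mul, eval_sub, eval_one, eval_X, eval_pow, hD.neg_one_pow, sub_self] at h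
  rcases mul_eq_zero.1 h with h | h
  · exfalso
    apply h2
    rw [← h]
    ring
  · exact h

theorem geom_der {D : ℕ} (hD : Even D) (h2 : (2 : F) ≠ 0) (hDF : (D : F) ≠ 0) :
    (derivative (∑ j ∈ Finset.range D, (X : F[X]) ^ j)).eval (-1) ≠ 0 := by
  intro h0
  have h1 := congrArg derivative (mul_neg_geom_sum (X : F[X]) D)
  rw [derivative_mul] at h1
  have h := congrArg (eval (-1)) h1
  simp only [eval_add, eval_mul, geom_neg_one hD h2, h0, mul_zero, add_zero, derivative_sub,
    derivative_one, derivative_X_pow, zero_sub, eval_neg, eval_C, eval_natCast, eval_pow, eval_X] at h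
  have h3 : (D : F) * (-1) ^ (D - 1) = 0 := by
    rw [← neg_eq_zero]
    exact h.symm
  rcases mul_eq_zero.1 h3 with h4 | h4
  · exact hDF h4
  · exact pow_ne_zero _ (neg_ne_zero.2 one_ne_zero) h4

end

/-- pairs with equal values and the size of the image -/
theorem image_le {α β : Type} [Fintype α] [DecidableEq α] [DecidableEq β] (f : α → β) (D : ℕ) (hD : 1 ≤ D)
    (hf : ∀ b, (Finset.univ.filter fun a => f a = b).card ≤ D) :
    ((Finset.univ.image f).card : ℝ) ≤ Fintype.card α -
      (((Finset.univ : Finset α).offDiag.filter fun z => f z.1 = f z.2).card : ℝ) / D := by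
  classical
  obtain ⟨T, hT⟩ : ∃ T, T = Finset.univ.image f := ⟨_, rfl⟩
  obtain ⟨m, hm⟩ : ∃ m : β → ℕ, m = fun b => (Finset.univ.filter fun a => f a = b).card := ⟨_, rfl⟩
  have h1 : (Fintype.card α : ℝ) = ∑ b ∈ T, (m b : ℝ) := by
    rw [← Finset.card_univ, Finset.card_eq_sum_card_image f, hT, hm]
    push_cast
    rfl
  have h2 : (((Finset.univ : Finset α).offDiag.filter fun z => f z.1 = f z.2).card : ℝ) =
      ∑ b ∈ T, (m b : ℝ) * (m b - 1) := by
    rw [Finset.card_eq_sum_card_fiberwise (t := T) (f := fun z => f z.1)]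
    · push_cast
      apply Finset.sum_congr rfl
      intro b _
      have h3 : (((Finset.univ : Finset α).offDiag.filter fun z => f z.1 = f z.2).filter
          fun z => f z.1 = b) = (Finset.univ.filter fun a => f a = b).offDiag := by
        ext z
        simp only [Finset.mem_filter, Finset.mem_offDiag, Finset.mem_univ, true_and]
        constructor
        · rintro ⟨⟨h1, h2⟩, h3⟩
          exact ⟨h3, by rw [← h2, h3], h1⟩
        · rintro ⟨h1, h2, h3⟩
          exact ⟨⟨h3, by rw [h1, h2]⟩, h1⟩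
      rw [h3, Finset.offDiag_card, hm, Nat.cast_sub (Nat.le_mul_self _)]
      push_cast
      ring
    · intro z _
      rw [hT]
      exact Finset.mem_coe.2 (Finset.mem_image_of_mem f (Finset.mem_univ _))
  have hD0 : (0 : ℝ) < D := by exact_mod_cast hD
  rw [h1, h2, Finset.sum_div, ← Finset.sum_sub_distrib, ← hT]
  have h3 : (T.card : ℝ) = ∑ b ∈ T, (1 : ℝ) := by simp
  rw [h3]
  apply Finset.sum_le_sum
  intro b hb
  have h4 : (1 : ℝ) ≤ m b := by
    rw [hT, Finset.mem_image] at hb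
    obtain ⟨a, _, ha⟩ := hb
    rw [hm]
    exact_mod_cast Finset.card_pos.2 ⟨a, by simp [ha]⟩
  have h5 : (m b : ℝ) ≤ D := by
    rw [hm]
    exact_mod_cast hf b
  have h6 : (m b : ℝ) * (m b - 1) / D ≤ m b - 1 := by
    rw [div_le_iff₀ hD0]
    nlinarith
  linarith

/-- a polynomial of even degree over a large finite field omits a positive proportion of the values -/
theorem value_set (D : ℕ) (hD2 : 2 ≤ D) (hD : Even D) : ∃ q₀ : ℕ, ∀ (F : Type) [Field F] [Fintype F]
    [DecidableEq F], q₀ ≤ Fintype.card F → (D : F) ≠ 0 → ∀ Ψ : F[X], Ψ.coeff D = 1 → Ψ.natDegree ≤ D →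
    ((Finset.univ.image fun x => Ψ.eval x).card : ℝ) ≤ (1 - 1 / (2 * D)) * Fintype.card F := by
  obtain ⟨K, hK⟩ : ∃ K : ℕ, K = Pool.Agent.R410.PW.WC D D (2 * D * D) := ⟨_, rfl⟩
  refine ⟨(2 * K + 4 * D) ^ 2, ?_⟩
  intro F _ _ _ hq hDF Ψ hΨ hΨd
  classical
  obtain ⟨q, hqd⟩ : ∃ q, q = Fintype.card F := ⟨_, rfl⟩
  rw [← hqd] at hq ⊢
  have h2 : (2 : F) ≠ 0 := by
    intro h
    obtain ⟨e, he⟩ := hD
    apply hDF
    rw [he, ← two_mul]
    push_cast
    rw [h, zero_mul]
  obtain ⟨G, hG⟩ : ∃ G, G = Gs Ψ D := ⟨_, rfl⟩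
  have hGm : G.Monic := by
    rw [hG]
    exact monic_Gs Ψ D (by omega) hΨ
  have hG0 : G.map (evalRingHom 0) = ∑ j ∈ Finset.range D, X ^ j := by
    rw [hG, map_Gs_zero Ψ D hΨ]
  obtain ⟨Φ, hΦm, hΦG, hirr, hΦ0⟩ := exists_absirr (k := AlgebraicClosure F) hGm (z₀ := -1)
    (by rw [hG0]; exact geom_neg_one hD h2) (by rw [hG0]; exact geom_der hD h2 hDF)
  have hirrF : Irreducible Φ := hΦm.irreducible_of_irreducible_map _ _ hirr
  have hcoef : ∀ i, (Φ.coeff i).natDegree ≤ D := fun i =>
    coeff_natDegree_of_dvd hGm.ne_zero hΦG (fun i => by rw [hG]; exact natDegree_coeff_Gs Ψ D i) i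
  have hΦd : Φ.natDegree ≤ D := by
    refine (natDegree_le_of_dvd hΦG hGm.ne_zero).trans ?_
    rw [hG]
    exact (natDegree_Gs_lt Ψ D (by omega)).le
  have hΦ' : derivative Φ ≠ 0 := by
    intro h0
    obtain ⟨R, hR⟩ := hΦG
    have h1 := geom_der (F := F) hD h2 hDF
    apply h1
    rw [← hG0, hR, Polynomial.map_mul, derivative_mul, eval_add, eval_mul, eval_mul, hΦ0, zero_mul,
      add_zero, derivative_map, h0]
    simp
  obtain ⟨A, B, D₀, hAB, hD₀, hD₀d⟩ := exists_AB hΦm hirrF hΦ' hcoef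
  have hΦpos : 0 < Φ.natDegree := by
    rw [Nat.pos_iff_ne_zero]
    intro h0
    have := eq_one_of_monic_natDegree_zero hΦm h0
    exact hirrF.not_isUnit (this ▸ isUnit_one)
  have hW := Pool.Agent.R410.PW.weil (AlgebraicClosure F) hΦm hΦpos hAB hD₀ hD₀d hcoef hirr
  have hWC : Pool.Agent.R410.PW.WC Φ.natDegree D (2 * Φ.natDegree * D) ≤ K := by
    rw [hK]
    unfold Pool.Agent.R410.PW.WC
    gcongr
  rw [Nat.card_eq_fintype_card, ← hqd] at hW
  have hsq : ((2 * K + 4 * D : ℕ) : ℝ) ≤ √(q : ℝ) := by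
    apply Real.le_sqrt_of_sq_le
    exact_mod_cast hq
  have hqq : √(q : ℝ) * √(q : ℝ) = q := Real.mul_self_sqrt (by positivity)
  -- the points of the curve
  obtain ⟨Z, hZ⟩ : ∃ Z : Finset (F × F), Z = Finset.univ.filter fun z => evalEval z.1 z.2 Φ = 0 := ⟨_, rfl⟩
  have hZc : ({z : F × F | evalEval z.1 z.2 Φ = 0}.ncard : ℝ) = Z.card := by
    rw [← Set.ncard_coe_finset, hZ]
    congr 2
    ext z
    simp
  rw [hZc] at hW
  have hZG : ∀ z ∈ Z, evalEval z.1 z.2 G = 0 := by
    intro z hz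
    rw [hZ, Finset.mem_filter] at hz
    obtain ⟨R, hR⟩ := hΦG
    rw [hR, evalEval_mul, hz.2, zero_mul]
  -- the points with `s = 0`
  have hZ0 : (Z.filter fun z => z.1 = 0).card ≤ D := by
    obtain ⟨P, hP⟩ : ∃ P : F[X], P = ∑ j ∈ Finset.range D, X ^ j := ⟨_, rfl⟩
    have hPG : G.map (evalRingHom 0) = P := by rw [hG0, hP]
    have hPm : P.Monic := by
      rw [← hPG]
      exact hGm.map _
    have hPd : P.natDegree ≤ D := by
      rw [← hPG, hGm.natDegree_map, hG]
      exact (natDegree_Gs_lt Ψ D (by omega)).le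
    calc (Z.filter fun z => z.1 = 0).card ≤ (P.roots.toFinset).card := by
          apply Finset.card_le_card_of_injOn (fun z => z.2)
          · intro z hz
            rw [Finset.mem_coe, Finset.mem_filter] at hz
            rw [Finset.mem_coe, Multiset.mem_toFinset, mem_roots hPm.ne_zero, IsRoot.def, ← hPG]
            have h3 := hZG z hz.1
            rw [hz.2] at h3
            rw [eval_map, eval₂_evalRingHom]
            exact h3
          · intro z hz z' hz' h
            rw [Finset.mem_coe, Finset.mem_filter] at hz hz'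
            exact Prod.ext (by rw [hz.2, hz'.2]) h
      _ ≤ P.natDegree := (Multiset.toFinset_card_le _).trans (card_roots' _)
      _ ≤ D := hPd
  -- the points with `z = 1`
  have hZ1 : (Z.filter fun z => z.2 = 1).card ≤ D := by
    obtain ⟨P, hP⟩ : ∃ P : F[X], P = G.eval 1 := ⟨_, rfl⟩
    have hPe : ∀ s, P.eval s = evalEval s 1 G := by
      intro s
      rw [hP, evalEval, C_1]
    have hP0 : P ≠ 0 := by
      intro h0
      have h3 := hPe 0
      rw [h0, eval_zero] at h3
      have h4 : evalEval 0 1 G = (G.map (evalRingHom 0)).eval 1 := by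
        rw [eval_map, eval₂_evalRingHom]
      rw [h4, hG0] at h3
      apply hDF
      rw [h3]
      simp [eval_finsetSum]
    have hPd : P.natDegree ≤ D := by
      rw [hP, eval_eq_sum_range]
      apply natDegree_sum_le_of_forall_le
      intro i _
      rw [one_pow, mul_one, hG]
      exact natDegree_coeff_Gs Ψ D i
    calc (Z.filter fun z => z.2 = 1).card ≤ (P.roots.toFinset).card := by
          apply Finset.card_le_card_of_injOn (fun z => z.1)
          · intro z hz
            rw [Finset.mem_coe, Finset.mem_filter] at hz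
            rw [Finset.mem_coe, Multiset.mem_toFinset, mem_roots hP0, IsRoot.def, hPe]
            have h3 := hZG z hz.1
            rw [hz.2] at h3
            exact h3
          · intro z hz z' hz' h
            rw [Finset.mem_coe, Finset.mem_filter] at hz hz'
            exact Prod.ext h (by rw [hz.2, hz'.2])
      _ ≤ P.natDegree := (Multiset.toFinset_card_le _).trans (card_roots' _)
      _ ≤ D := hPd
  -- pairs with the same value
  obtain ⟨Z', hZ'⟩ : ∃ Z' : Finset (F × F), Z' = Z.filter fun z => ¬ (z.1 = 0 ∨ z.2 = 1) := ⟨_, rfl⟩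
  have hZZ' : Z.card ≤ Z'.card + 2 * D := by
    have h3 : (Z.filter fun z => z.1 = 0 ∨ z.2 = 1).card ≤ 2 * D := by
      rw [Finset.filter_or]
      refine (Finset.card_union_le _ _).trans ?_
      omega
    have h4 := Finset.card_filter_add_card_filter_not (s := Z) (fun z => z.1 = 0 ∨ z.2 = 1)
    rw [← hZ'] at h4
    omega
  have hpairs : Z'.card ≤ ((Finset.univ : Finset F).offDiag.filter fun z =>
      Ψ.eval z.1 = Ψ.eval z.2).card := by
    apply Finset.card_le_card_of_injOn (fun z => (1 / z.1, z.2 / z.1))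
    · intro z hz
      rw [Finset.mem_coe, hZ', Finset.mem_filter] at hz
      push Not at hz
      obtain ⟨hz1, hz2, hz3⟩ := hz
      rw [Finset.mem_coe, Finset.mem_filter, Finset.mem_offDiag]
      refine ⟨⟨Finset.mem_univ _, Finset.mem_univ _, ?_⟩, ?_⟩
      · intro h
        apply hz3
        have h' : 1 / z.1 = z.2 / z.1 := h
        rw [div_left_inj' hz2] at h'
        exact h'.symm
      · exact eq_of_Gs hΨd hz2 (by rw [← hG]; exact hZG z hz1)
    · intro z hz z' hz' h
      rw [Finset.mem_coe, hZ', Finset.mem_filter] at hz hz'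
      push Not at hz hz'
      have h' := Prod.ext_iff.1 h
      obtain ⟨h3, h4⟩ := h'
      simp only [one_div, inv_inj] at h3
      simp only at h4
      rw [h3, div_left_inj' (by rw [← h3]; exact hz.2.1)] at h4
      exact Prod.ext h3 h4
  have hroots : ∀ b, (Finset.univ.filter fun a => Ψ.eval a = b).card ≤ D := by
    intro b
    have hne : Ψ - C b ≠ 0 := by
      intro h0
      have h3 := congrArg (fun P => coeff P D) h0
      simp only [coeff_sub, hΨ, coeff_zero, coeff_C, if_neg (show ¬ D = 0 by omega), sub_zero] at h3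
      exact one_ne_zero h3
    calc (Finset.univ.filter fun a => Ψ.eval a = b).card ≤ (Ψ - C b).roots.toFinset.card := by
          apply Finset.card_le_card
          intro a ha
          rw [Finset.mem_filter] at ha
          rw [Multiset.mem_toFinset, mem_roots hne, IsRoot.def, eval_sub, eval_C, ha.2, sub_self]
      _ ≤ (Ψ - C b).natDegree := (Multiset.toFinset_card_le _).trans (card_roots' _)
      _ ≤ D := (natDegree_sub_le _ _).trans (max_le hΨd (by rw [natDegree_C]; omega))
  have hfin := image_le (fun a => Ψ.eval a) D (by omega) hroots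
  rw [← hqd] at hfin
  have hD0 : (0 : ℝ) < D := by
    have : (2 : ℝ) ≤ D := by exact_mod_cast hD2
    linarith
  have h3 : (q : ℝ) / 2 ≤ (((Finset.univ : Finset F).offDiag.filter fun z =>
      Ψ.eval z.1 = Ψ.eval z.2).card : ℝ) := by
    have h4 := (abs_le.1 hW).1
    have h5 : (Z.card : ℝ) ≤ Z'.card + 2 * D := by exact_mod_cast hZZ'
    have h6 : (Z'.card : ℝ) ≤ (((Finset.univ : Finset F).offDiag.filter fun z =>
      Ψ.eval z.1 = Ψ.eval z.2).card : ℝ) := by exact_mod_cast hpairs
    have h7 : (Pool.Agent.R410.PW.WC Φ.natDegree D (2 * Φ.natDegree * D) : ℝ) ≤ K := by exact_mod_cast hWC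
    have h8 : (Pool.Agent.R410.PW.WC Φ.natDegree D (2 * Φ.natDegree * D) : ℝ) * √(q : ℝ) ≤ K * √(q : ℝ) := by
      gcongr
    push_cast at hsq
    have h9 : (0 : ℝ) ≤ K := by positivity
    have h10 : (1 : ℝ) ≤ √(q : ℝ) := by
      have : (2 : ℝ) ≤ D := by exact_mod_cast hD2
      linarith
    nlinarith
  have h4 : (q : ℝ) / 2 / D ≤ (((Finset.univ : Finset F).offDiag.filter fun z =>
      Ψ.eval z.1 = Ψ.eval z.2).card : ℝ) / D := by
    gcongr
  have h5 : (q : ℝ) / 2 / D = 1 / (2 * D) * q := by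
    field_simp
  linarith

end Pool.Agent.Helper3K9.EV
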