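import Pool.Agent.Helper3K9.EV.Val

set_option autoImplicit false

/-! The value set of the rational function `Ψ(w) / w^j`, `Ψ` monic of degree `D`, `D - j` even, over a
finite field. -/

namespace Pool.Agent.Helper3K9.EV

open Polynomial

section

variable {R : Type} [CommRing R]

/-- the coefficients of `Gj` -/
noncomputable def gcj (Ψ : R[X]) (D j m : ℕ) : R[X] :=
  if j ≤ m then ∑ i ∈ Finset.Ioc m D, C (Ψ.coeff i) * X ^ (D - i)
  else -∑ i ∈ Finset.range (m + 1), C (Ψ.coeff i) * X ^ (D - i)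

/-- the curve `Ψ(x) / x^j = Ψ(y) / y^j`, `x ≠ y`, in the coordinates `s = 1/x`, `z = y/x` -/
noncomputable def Gj (Ψ : R[X]) (D j : ℕ) : R[X][X] :=
  ∑ m ∈ Finset.range D, C (gcj Ψ D j m) * X ^ m

theorem coeff_Gj (Ψ : R[X]) (D j m : ℕ) : (Gj Ψ D j).coeff m = if m < D then gcj Ψ D j m else 0 := by
  unfold Gj
  rw [finsetSum_coeff]
  simp only [coeff_C_mul, coeff_X_pow, mul_ite, mul_one, mul_zero]
  rw [Finset.sum_ite_eq]
  simp

theorem natDegree_gcj (Ψ : R[X]) (D j m : ℕ) : (gcj Ψ D j m).natDegree ≤ D := by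
  unfold gcj
  split_ifs
  · apply natDegree_sum_le_of_forall_le
    intro i _
    refine (natDegree_C_mul_X_pow_le _ _).trans ?_
    omega
  · rw [natDegree_neg]
    apply natDegree_sum_le_of_forall_le
    intro i _
    refine (natDegree_C_mul_X_pow_le _ _).trans ?_
    omega

theorem natDegree_coeff_Gj (Ψ : R[X]) (D j m : ℕ) : ((Gj Ψ D j).coeff m).natDegree ≤ D := by
  rw [coeff_Gj]
  split_ifs
  · exact natDegree_gcj _ _ _ _
  · simp

theorem gcj_top (Ψ : R[X]) (D j : ℕ) (hj : j < D) (hΨ : Ψ.coeff D = 1) : gcj Ψ D j (D - 1) = 1 := by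
  unfold gcj
  rw [if_pos (by omega)]
  have : Finset.Ioc (D - 1) D = {D} := by
    ext i
    simp only [Finset.mem_Ioc, Finset.mem_singleton]
    omega
  rw [this, Finset.sum_singleton, hΨ]
  simp

theorem natDegree_Gj_lt (Ψ : R[X]) (D j : ℕ) (hj : j < D) : (Gj Ψ D j).natDegree < D := by
  have : (Gj Ψ D j).natDegree ≤ D - 1 := by
    rw [natDegree_le_iff_coeff_eq_zero]
    intro m hm
    rw [coeff_Gj, if_neg (by omega)]
  omega

theorem monic_Gj (Ψ : R[X]) (D j : ℕ) (hj : j < D) (hΨ : Ψ.coeff D = 1) : (Gj Ψ D j).Monic := by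
  apply monic_of_natDegree_le_of_coeff_eq_one (D - 1)
  · have := natDegree_Gj_lt Ψ D j hj
    omega
  · rw [coeff_Gj, if_pos (by omega), gcj_top Ψ D j hj hΨ]

theorem mul_geom_Ico (z : R) {a b : ℕ} (hab : a ≤ b) : (1 - z) * ∑ m ∈ Finset.Ico a b, z ^ m = z ^ a - z ^ b := by
  have h := geom_sum_Ico_mul z hab
  linear_combination -h

theorem mul_eval_Gj (Ψ : R[X]) (D j : ℕ) (hj : j < D) (s z : R) :
    (1 - z) * evalEval s z (Gj Ψ D j) =
      ∑ i ∈ Finset.range (D + 1), Ψ.coeff i * s ^ (D - i) * (z ^ j - z ^ i) := by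
  have h1 : evalEval s z (Gj Ψ D j) =
      (∑ i ∈ Finset.Ioc j D, Ψ.coeff i * s ^ (D - i) * ∑ m ∈ Finset.Ico j i, z ^ m) -
      ∑ i ∈ Finset.range j, Ψ.coeff i * s ^ (D - i) * ∑ m ∈ Finset.Ico i j, z ^ m := by
    unfold evalEval Gj
    simp only [eval_finsetSum, eval_mul, eval_C, eval_pow, eval_X]
    have h2 : Finset.range D = Finset.range j ∪ Finset.Ico j D := by
      ext m
      simp only [Finset.mem_range, Finset.mem_union, Finset.mem_Ico]
      omega
    rw [h2, Finset.sum_union (by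
      rw [Finset.disjoint_left]
      intro m h3 h4
      rw [Finset.mem_range] at h3
      rw [Finset.mem_Ico] at h4
      omega)]
    have h5 : ∀ m ∈ Finset.range j, eval s (gcj Ψ D j m) * z ^ m =
        -∑ i ∈ Finset.range (m + 1), Ψ.coeff i * s ^ (D - i) * z ^ m := by
      intro m hm
      rw [Finset.mem_range] at hm
      unfold gcj
      rw [if_neg (by omega)]
      simp only [eval_neg, eval_finsetSum, eval_mul, eval_C, eval_pow, eval_X, neg_mul, Finset.sum_mul]
    have h6 : ∀ m ∈ Finset.Ico j D, eval s (gcj Ψ D j m) * z ^ m =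
        ∑ i ∈ Finset.Ioc m D, Ψ.coeff i * s ^ (D - i) * z ^ m := by
      intro m hm
      rw [Finset.mem_Ico] at hm
      unfold gcj
      rw [if_pos (by omega)]
      simp only [eval_finsetSum, eval_mul, eval_C, eval_pow, eval_X, Finset.sum_mul]
    rw [Finset.sum_congr rfl h5, Finset.sum_congr rfl h6, Finset.sum_neg_distrib]
    have h7 : (∑ m ∈ Finset.range j, ∑ i ∈ Finset.range (m + 1), Ψ.coeff i * s ^ (D - i) * z ^ m) =
        ∑ i ∈ Finset.range j, ∑ m ∈ Finset.Ico i j, Ψ.coeff i * s ^ (D - i) * z ^ m := by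
      apply Finset.sum_comm'
      intro x y
      simp only [Finset.mem_range, Finset.mem_Ico]
      omega
    have h8 : (∑ m ∈ Finset.Ico j D, ∑ i ∈ Finset.Ioc m D, Ψ.coeff i * s ^ (D - i) * z ^ m) =
        ∑ i ∈ Finset.Ioc j D, ∑ m ∈ Finset.Ico j i, Ψ.coeff i * s ^ (D - i) * z ^ m := by
      apply Finset.sum_comm'
      intro x y
      simp only [Finset.mem_Ioc, Finset.mem_Ico]
      omega
    rw [h7, h8]
    simp only [Finset.mul_sum]
    ring
  rw [h1, mul_sub, Finset.mul_sum, Finset.mul_sum]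
  have h2 : Finset.range (D + 1) = (Finset.range j ∪ {j}) ∪ Finset.Ioc j D := by
    ext m
    simp only [Finset.mem_range, Finset.mem_union, Finset.mem_Ioc, Finset.mem_singleton]
    omega
  rw [h2, Finset.sum_union (by
      rw [Finset.disjoint_left]
      intro m h3 h4
      simp only [Finset.mem_union, Finset.mem_range, Finset.mem_singleton] at h3
      rw [Finset.mem_Ioc] at h4
      omega), Finset.sum_union (by
      rw [Finset.disjoint_left]
      intro m h3 h4
      rw [Finset.mem_range] at h3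
      rw [Finset.mem_singleton] at h4
      omega), Finset.sum_singleton, sub_self, mul_zero, add_zero, add_comm, sub_eq_add_neg,
    ← Finset.sum_neg_distrib]
  congr 1
  · apply Finset.sum_congr rfl
    intro i hi
    rw [Finset.mem_Ioc] at hi
    rw [← mul_geom_Ico z hi.1.le]
    ring
  · apply Finset.sum_congr rfl
    intro i hi
    rw [Finset.mem_range] at hi
    have := mul_geom_Ico z hi.le
    linear_combination (-(Ψ.coeff i * s ^ (D - i))) * this

theorem map_Gj_zero (Ψ : R[X]) (D j : ℕ) (hΨ : Ψ.coeff D = 1) :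
    (Gj Ψ D j).map (evalRingHom 0) = ∑ m ∈ Finset.Ico j D, X ^ m := by
  unfold Gj
  simp only [Polynomial.map_sum, Polynomial.map_mul, map_C, Polynomial.map_pow, map_X, coe_evalRingHom]
  have h2 : Finset.Ico j D = (Finset.range D).filter (fun m => j ≤ m) := by
    ext m
    simp only [Finset.mem_range, Finset.mem_filter, Finset.mem_Ico]
    omega
  rw [h2, Finset.sum_filter]
  apply Finset.sum_congr rfl
  intro m hm
  rw [Finset.mem_range] at hm
  unfold gcj
  split_ifs with h
  · rw [eval_finsetSum, Finset.sum_eq_single D]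
    · simp [hΨ]
    · intro i hi hiD
      rw [Finset.mem_Ioc] at hi
      rw [eval_mul, eval_C, eval_pow, eval_X, zero_pow (by omega), mul_zero]
    · intro h
      exact absurd (Finset.mem_Ioc.2 ⟨hm, le_rfl⟩) h
  · rw [eval_neg, eval_finsetSum, Finset.sum_eq_zero]
    · simp
    · intro i hi
      rw [Finset.mem_range] at hi
      rw [eval_mul, eval_C, eval_pow, eval_X, zero_pow (by omega), mul_zero]

end

section

variable {F : Type} [Field F]

theorem eq_of_Gj {Ψ : F[X]} {D j : ℕ} (hj : j < D) (hΨ : Ψ.natDegree ≤ D) {s z : F} (hs : s ≠ 0) (hz : z ≠ 0)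
    (h : evalEval s z (Gj Ψ D j) = 0) :
    Ψ.eval (1 / s) / (1 / s) ^ j = Ψ.eval (z / s) / (z / s) ^ j := by
  have h1 := mul_eval_Gj Ψ D j hj s z
  rw [h, mul_zero] at h1
  have h2 : ∀ x : F, s ^ D * Ψ.eval (x / s) = ∑ i ∈ Finset.range (D + 1), Ψ.coeff i * s ^ (D - i) * x ^ i := by
    intro x
    rw [eval_eq_sum_range' (Nat.lt_succ_of_le hΨ), Finset.mul_sum]
    apply Finset.sum_congr rfl
    intro i hi
    rw [Finset.mem_range] at hi
    have h3 : s ^ D = s ^ (D - i) * s ^ i := by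
      rw [← pow_add]
      congr 1
      omega
    rw [h3, div_pow]
    field_simp
  have h3 : s ^ D * (z ^ j * Ψ.eval (1 / s) - Ψ.eval (z / s)) = 0 := by
    have h4 : s ^ D * (z ^ j * Ψ.eval (1 / s) - Ψ.eval (z / s)) =
        z ^ j * (s ^ D * Ψ.eval (1 / s)) - s ^ D * Ψ.eval (z / s) := by ring
    rw [h4, h2, h2, h1, Finset.mul_sum, ← Finset.sum_sub_distrib]
    apply Finset.sum_congr rfl
    intro i _
    ring
  rcases mul_eq_zero.1 h3 with h4 | h4
  · exact absurd h4 (pow_ne_zero _ hs)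
  · rw [sub_eq_zero] at h4
    rw [← h4, div_pow, div_pow, one_pow]
    field_simp

theorem geomj_neg_one {D j : ℕ} (hj : j < D) (hD : Even (D - j)) (h2 : (2 : F) ≠ 0) :
    (∑ m ∈ Finset.Ico j D, (X : F[X]) ^ m).eval (-1) = 0 := by
  have h := congrArg (eval (-1)) (mul_geom_Ico (X : F[X]) hj.le)
  simp only [eval_mul, eval_sub, eval_one, eval_X, eval_pow] at h
  have h3 : (-1 : F) ^ D = (-1) ^ j := by
    have : D = j + (D - j) := by omega
    rw [this, pow_add, hD.neg_one_pow, mul_one]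
  rw [h3, sub_self] at h
  rcases mul_eq_zero.1 h with h | h
  · exfalso
    apply h2
    rw [← h]
    ring
  · exact h

theorem geomj_der {D j : ℕ} (hj : j < D) (hD : Even (D - j)) (h2 : (2 : F) ≠ 0) (hDF : ((D - j : ℕ) : F) ≠ 0) :
    (derivative (∑ m ∈ Finset.Ico j D, (X : F[X]) ^ m)).eval (-1) ≠ 0 := by
  intro h0
  have h1 := congrArg derivative (mul_geom_Ico (X : F[X]) hj.le)
  rw [derivative_mul] at h1
  have h := congrArg (eval (-1)) h1
  simp only [eval_add, eval_mul, geomj_neg_one hj hD h2, h0, mul_zero, add_zero, derivative_sub,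
    derivative_X_pow, eval_sub, eval_C, eval_pow, eval_X] at h
  have h3 : (j : F) * (-1) ^ (j - 1) - (D : F) * (-1) ^ (D - 1) = 0 := h.symm
  have h4 : (-1 : F) * ((j : F) * (-1) ^ (j - 1)) = (j : F) * (-1) ^ j := by
    rcases Nat.eq_zero_or_pos j with h5 | h5
    · rw [h5]
      simp
    · have : j = (j - 1) + 1 := by omega
      nth_rewrite 4 [this]
      rw [pow_succ]
      ring
  have h5 : (-1 : F) * ((D : F) * (-1) ^ (D - 1)) = (D : F) * (-1) ^ D := by
    have : D = (D - 1) + 1 := by omega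
    nth_rewrite 4 [this]
    rw [pow_succ]
    ring
  have h6 : (-1 : F) ^ D = (-1) ^ j := by
    have : D = j + (D - j) := by omega
    rw [this, pow_add, hD.neg_one_pow, mul_one]
  have h7 : ((D : F) - j) * (-1) ^ j = 0 := by
    have h8 : (-1 : F) * ((j : F) * (-1) ^ (j - 1) - (D : F) * (-1) ^ (D - 1)) = 0 := by rw [h3, mul_zero]
    rw [mul_sub, h4, h5, h6] at h8
    linear_combination -h8
  rcases mul_eq_zero.1 h7 with h8 | h8
  · apply hDF
    rw [Nat.cast_sub hj.le]
    exact h8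
  · exact pow_ne_zero _ (neg_ne_zero.2 one_ne_zero) h8

end

/-- pairs with equal values and the size of the image -/
theorem image_le' {α β : Type} [DecidableEq α] [DecidableEq β] (A : Finset α) (f : α → β) (D : ℕ) (hD : 1 ≤ D)
    (hf : ∀ b, (A.filter fun a => f a = b).card ≤ D) :
    ((A.image f).card : ℝ) ≤ A.card - ((A.offDiag.filter fun z => f z.1 = f z.2).card : ℝ) / D := by
  classical
  obtain ⟨T, hT⟩ : ∃ T, T = A.image f := ⟨_, rfl⟩
  obtain ⟨m, hm⟩ : ∃ m : β → ℕ, m = fun b => (A.filter fun a => f a = b).card := ⟨_, rfl⟩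
  have h1 : (A.card : ℝ) = ∑ b ∈ T, (m b : ℝ) := by
    rw [Finset.card_eq_sum_card_image f, hT, hm]
    push_cast
    rfl
  have h2 : ((A.offDiag.filter fun z => f z.1 = f z.2).card : ℝ) =
      ∑ b ∈ T, (m b : ℝ) * (m b - 1) := by
    rw [Finset.card_eq_sum_card_fiberwise (t := T) (f := fun z => f z.1)]
    · push_cast
      apply Finset.sum_congr rfl
      intro b _
      have h3 : ((A.offDiag.filter fun z => f z.1 = f z.2).filter
          fun z => f z.1 = b) = (A.filter fun a => f a = b).offDiag := by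
        ext z
        simp only [Finset.mem_filter, Finset.mem_offDiag]
        constructor
        · rintro ⟨⟨⟨h1, h2, h3⟩, h4⟩, h5⟩
          exact ⟨⟨h1, h5⟩, ⟨h2, by rw [← h4, h5]⟩, h3⟩
        · rintro ⟨⟨h1, h2⟩, ⟨h3, h4⟩, h5⟩
          exact ⟨⟨⟨h1, h3, h5⟩, by rw [h2, h4]⟩, h2⟩
      rw [h3, Finset.offDiag_card, hm, Nat.cast_sub (Nat.le_mul_self _)]
      push_cast
      ring
    · intro z hz
      rw [Finset.mem_coe, Finset.mem_filter, Finset.mem_offDiag] at hz
      rw [hT]
      exact Finset.mem_coe.2 (Finset.mem_image_of_mem f hz.1.1)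
  have hD0 : (0 : ℝ) < D := by exact_mod_cast hD
  rw [h1, h2, Finset.sum_div, ← Finset.sum_sub_distrib, ← hT]
  have h3 : (T.card : ℝ) = ∑ b ∈ T, (1 : ℝ) := by simp
  rw [h3]
  apply Finset.sum_le_sum
  intro b hb
  have h4 : (1 : ℝ) ≤ m b := by
    rw [hT, Finset.mem_image] at hb
    obtain ⟨a, haA, ha⟩ := hb
    rw [hm]
    exact_mod_cast Finset.card_pos.2 ⟨a, by simp [ha, haA]⟩
  have h5 : (m b : ℝ) ≤ D := by
    rw [hm]
    exact_mod_cast hf b
  have h6 : (m b : ℝ) * (m b - 1) / D ≤ m b - 1 := by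
    rw [div_le_iff₀ hD0]
    nlinarith
  linarith

/-- the rational function `Ψ(w) / w^j`, `Ψ` monic of degree `D`, `Ψ(0) ≠ 0`, `D - j` even, over a large finite
field omits a positive proportion of the values -/
theorem value_set_j (D j : ℕ) (hj1 : 1 ≤ j) (hj : j < D) (hD : Even (D - j)) : ∃ q₀ : ℕ, ∀ (F : Type) [Field F]
    [Fintype F] [DecidableEq F], q₀ ≤ Fintype.card F → ((D - j : ℕ) : F) ≠ 0 → ∀ Ψ : F[X], Ψ.coeff D = 1 →
    Ψ.natDegree ≤ D → Ψ.coeff 0 ≠ 0 →
    (((Finset.univ.filter fun x : F => x ≠ 0).image fun x => Ψ.eval x / x ^ j).card : ℝ) ≤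
      (1 - 1 / (2 * D)) * Fintype.card F := by
  obtain ⟨K, hK⟩ : ∃ K : ℕ, K = Pool.Agent.R410.PW.WC D D (2 * D * D) := ⟨_, rfl⟩
  refine ⟨(2 * K + 4 * D) ^ 2, ?_⟩
  intro F _ _ _ hq hDF Ψ hΨ hΨd hΨ0
  classical
  obtain ⟨q, hqd⟩ : ∃ q, q = Fintype.card F := ⟨_, rfl⟩
  rw [← hqd] at hq ⊢
  have hD2 : 2 ≤ D := by
    obtain ⟨e, he⟩ := hD
    omega
  have h2 : (2 : F) ≠ 0 := by
    intro h
    obtain ⟨e, he⟩ := hD
    apply hDF
    rw [he, ← two_mul]
    push_cast
    rw [h, zero_mul]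
  obtain ⟨G, hG⟩ : ∃ G, G = Gj Ψ D j := ⟨_, rfl⟩
  have hGm : G.Monic := by
    rw [hG]
    exact monic_Gj Ψ D j hj hΨ
  have hG0 : G.map (evalRingHom 0) = ∑ m ∈ Finset.Ico j D, X ^ m := by
    rw [hG, map_Gj_zero Ψ D j hΨ]
  obtain ⟨Φ, hΦm, hΦG, hirr, hΦ0⟩ := exists_absirr (k := AlgebraicClosure F) hGm (z₀ := -1)
    (by rw [hG0]; exact geomj_neg_one hj hD h2) (by rw [hG0]; exact geomj_der hj hD h2 hDF)
  have hirrF : Irreducible Φ := hΦm.irreducible_of_irreducible_map _ _ hirr
  have hcoef : ∀ i, (Φ.coeff i).natDegree ≤ D := fun i =>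
    coeff_natDegree_of_dvd hGm.ne_zero hΦG (fun i => by rw [hG]; exact natDegree_coeff_Gj Ψ D j i) i
  have hΦd : Φ.natDegree ≤ D := by
    refine (natDegree_le_of_dvd hΦG hGm.ne_zero).trans ?_
    rw [hG]
    exact (natDegree_Gj_lt Ψ D j hj).le
  have hΦ' : derivative Φ ≠ 0 := by
    intro h0
    obtain ⟨R, hR⟩ := hΦG
    have h1 := geomj_der (F := F) hj hD h2 hDF
    apply h1
    rw [← hG0, hR, Polynomial.map_mul, derivative_mul, eval_add, eval_mul, eval_mul, hΦ0, zero_mul,
      add_zero, derivative_map, h0]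
    simp
  obtain ⟨A, B, D₀, hAB, hD₀, hD₀d⟩ := exists_AB hΦm hirrF hΦ' hcoef
  have hΦpos : 0 < Φ.natDegree := by
    rw [Nat.pos_iff_ne_zero]
    intro h0
    have := eq_one_of_monic_natDegree_zero hΦm h0
    exact hirrF.not_isUnit (this ▸ isUnit_one)
  have hW := Pool.Agent.R410.PW.weil (AlgebraicClosure F) hΦm hΦpos hAB hD₀ hD₀d hcoef hirr
  have hWC : Pool.Agent.R410.PW.WC Φ.natDegree D (2 * Φ.natDegree * D) ≤ K := by
    rw [hK]
    unfold Pool.Agent.R410.PW.WC
    gcongr
  rw [Nat.card_eq_fintype_card, ← hqd] at hW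
  have hsq : ((2 * K + 4 * D : ℕ) : ℝ) ≤ √(q : ℝ) := by
    apply Real.le_sqrt_of_sq_le
    exact_mod_cast hq
  have hqq : √(q : ℝ) * √(q : ℝ) = q := Real.mul_self_sqrt (by positivity)
  -- the points of the curve
  obtain ⟨Z, hZ⟩ : ∃ Z : Finset (F × F), Z = Finset.univ.filter fun z => evalEval z.1 z.2 Φ = 0 := ⟨_, rfl⟩
  have hZc : ({z : F × F | evalEval z.1 z.2 Φ = 0}.ncard : ℝ) = Z.card := by
    rw [← Set.ncard_coe_finset, hZ]
    congr 2
    ext z
    simp
  rw [hZc] at hW
  have hZG : ∀ z ∈ Z, evalEval z.1 z.2 G = 0 := by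
    intro z hz
    rw [hZ, Finset.mem_filter] at hz
    obtain ⟨R, hR⟩ := hΦG
    rw [hR, evalEval_mul, hz.2, zero_mul]
  -- the points with `s = 0`
  have hZ0 : (Z.filter fun z => z.1 = 0).card ≤ D := by
    obtain ⟨P, hP⟩ : ∃ P : F[X], P = ∑ m ∈ Finset.Ico j D, X ^ m := ⟨_, rfl⟩
    have hPG : G.map (evalRingHom 0) = P := by rw [hG0, hP]
    have hPm : P.Monic := by
      rw [← hPG]
      exact hGm.map _
    have hPd : P.natDegree ≤ D := by
      rw [← hPG, hGm.natDegree_map, hG]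
      exact (natDegree_Gj_lt Ψ D j hj).le
    calc (Z.filter fun z => z.1 = 0).card ≤ (P.roots.toFinset).card := by
          apply Finset.card_le_card_of_injOn (fun z => z.2)
          · intro z hz
            rw [Finset.mem_coe, Finset.mem_filter] at hz
            rw [Finset.mem_coe, Multiset.mem_toFinset, mem_roots hPm.ne_zero, IsRoot.def, ← hPG]
            have h3 := hZG z hz.1
            rw [hz.2] at h3
            rw [eval_map, eval₂_evalRingHom]
            exact h3
          · intro z hz z' hz' h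
            rw [Finset.mem_coe, Finset.mem_filter] at hz hz'
            exact Prod.ext (by rw [hz.2, hz'.2]) h
      _ ≤ P.natDegree := (Multiset.toFinset_card_le _).trans (card_roots' _)
      _ ≤ D := hPd
  -- the points with `z = 1`
  have hZ1 : (Z.filter fun z => z.2 = 1).card ≤ D := by
    obtain ⟨P, hP⟩ : ∃ P : F[X], P = G.eval 1 := ⟨_, rfl⟩
    have hPe : ∀ s, P.eval s = evalEval s 1 G := by
      intro s
      rw [hP, evalEval, C_1]
    have hP0 : P ≠ 0 := by
      intro h0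
      have h3 := hPe 0
      rw [h0, eval_zero] at h3
      have h4 : evalEval 0 1 G = (G.map (evalRingHom 0)).eval 1 := by
        rw [eval_map, eval₂_evalRingHom]
      rw [h4, hG0] at h3
      apply hDF
      rw [h3]
      simp [eval_finsetSum]
    have hPd : P.natDegree ≤ D := by
      rw [hP, eval_eq_sum_range]
      apply natDegree_sum_le_of_forall_le
      intro i _
      rw [one_pow, mul_one, hG]
      exact natDegree_coeff_Gj Ψ D j i
    calc (Z.filter fun z => z.2 = 1).card ≤ (P.roots.toFinset).card := by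
          apply Finset.card_le_card_of_injOn (fun z => z.1)
          · intro z hz
            rw [Finset.mem_coe, Finset.mem_filter] at hz
            rw [Finset.mem_coe, Multiset.mem_toFinset, mem_roots hP0, IsRoot.def, hPe]
            have h3 := hZG z hz.1
            rw [hz.2] at h3
            exact h3
          · intro z hz z' hz' h
            rw [Finset.mem_coe, Finset.mem_filter] at hz hz'
            exact Prod.ext h (by rw [hz.2, hz'.2])
      _ ≤ P.natDegree := (Multiset.toFinset_card_le _).trans (card_roots' _)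
      _ ≤ D := hPd
  -- pairs with the same value
  obtain ⟨Z', hZ'⟩ : ∃ Z' : Finset (F × F), Z' = Z.filter fun z => ¬ (z.1 = 0 ∨ z.2 = 1) := ⟨_, rfl⟩
  have hZZ' : Z.card ≤ Z'.card + 2 * D := by
    have h3 : (Z.filter fun z => z.1 = 0 ∨ z.2 = 1).card ≤ 2 * D := by
      rw [Finset.filter_or]
      refine (Finset.card_union_le _ _).trans ?_
      omega
    have h4 := Finset.card_filter_add_card_filter_not (s := Z) (fun z => z.1 = 0 ∨ z.2 = 1)
    rw [← hZ'] at h4
    omega
  have hz0 : ∀ z ∈ Z', z.1 ≠ 0 ∧ z.2 ≠ 1 ∧ z.2 ≠ 0 ∧ evalEval z.1 z.2 G = 0 := by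
    intro z hz
    rw [hZ', Finset.mem_filter] at hz
    push Not at hz
    obtain ⟨hz1, hz2, hz3⟩ := hz
    refine ⟨hz2, hz3, ?_, hZG z hz1⟩
    intro h0
    have h3 := mul_eval_Gj Ψ D j hj z.1 z.2
    rw [← hG, hZG z hz1, mul_zero, h0, zero_pow (by omega), Finset.sum_eq_single 0] at h3
    · rw [pow_zero, zero_sub, mul_neg, mul_one, Nat.sub_zero] at h3
      rcases mul_eq_zero.1 (neg_eq_zero.1 h3.symm) with h4 | h4
      · exact hΨ0 h4
      · exact pow_ne_zero _ hz2 h4
    · intro i _ hi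
      rw [zero_pow hi, sub_zero, mul_zero]
    · intro h4
      exact absurd (Finset.mem_range.2 (by omega)) h4
  have hpairs : Z'.card ≤ ((Finset.univ.filter fun x : F => x ≠ 0).offDiag.filter fun z =>
      Ψ.eval z.1 / z.1 ^ j = Ψ.eval z.2 / z.2 ^ j).card := by
    apply Finset.card_le_card_of_injOn (fun z => (1 / z.1, z.2 / z.1))
    · intro z hz
      obtain ⟨hz2, hz3, hz4, hz5⟩ := hz0 z hz
      rw [Finset.mem_coe, Finset.mem_filter, Finset.mem_offDiag, Finset.mem_filter, Finset.mem_filter]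
      refine ⟨⟨⟨Finset.mem_univ _, ?_⟩, ⟨Finset.mem_univ _, ?_⟩, ?_⟩, ?_⟩
      · exact div_ne_zero one_ne_zero hz2
      · exact div_ne_zero hz4 hz2
      · intro h
        apply hz3
        have h' : 1 / z.1 = z.2 / z.1 := h
        rw [div_left_inj' hz2] at h'
        exact h'.symm
      · exact eq_of_Gj hj hΨd hz2 hz4 (by rw [← hG]; exact hz5)
    · intro z hz z' hz' h
      have h' := Prod.ext_iff.1 h
      obtain ⟨h3, h4⟩ := h'
      simp only [one_div, inv_inj] at h3
      simp only at h4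
      rw [h3, div_left_inj' (by rw [← h3]; exact (hz0 z hz).1)] at h4
      exact Prod.ext h3 h4
  have hroots : ∀ b, ((Finset.univ.filter fun x : F => x ≠ 0).filter fun a => Ψ.eval a / a ^ j = b).card ≤ D := by
    intro b
    have hne : Ψ - C b * X ^ j ≠ 0 := by
      intro h0
      have h3 := congrArg (fun P => coeff P D) h0
      simp only [coeff_sub, hΨ, coeff_zero, coeff_C_mul, coeff_X_pow, if_neg (show ¬ D = j by omega),
        mul_zero, sub_zero] at h3
      exact one_ne_zero h3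
    calc ((Finset.univ.filter fun x : F => x ≠ 0).filter fun a => Ψ.eval a / a ^ j = b).card ≤
          (Ψ - C b * X ^ j).roots.toFinset.card := by
          apply Finset.card_le_card
          intro a ha
          rw [Finset.mem_filter, Finset.mem_filter] at ha
          rw [Multiset.mem_toFinset, mem_roots hne, IsRoot.def, eval_sub, eval_mul, eval_C, eval_pow, eval_X,
            ← ha.2, div_mul_cancel₀ _ (pow_ne_zero _ ha.1.2), sub_self]
      _ ≤ (Ψ - C b * X ^ j).natDegree := (Multiset.toFinset_card_le _).trans (card_roots' _)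
      _ ≤ D := (natDegree_sub_le _ _).trans (max_le hΨd ((natDegree_C_mul_X_pow_le _ _).trans hj.le))
  have hfin := image_le' (Finset.univ.filter fun x : F => x ≠ 0) (fun a => Ψ.eval a / a ^ j) D (by omega) hroots
  have hcard : ((Finset.univ.filter fun x : F => x ≠ 0).card : ℝ) ≤ q := by
    rw [hqd, ← Finset.card_univ]
    exact_mod_cast Finset.card_filter_le _ _
  have hD0 : (0 : ℝ) < D := by
    have : (2 : ℝ) ≤ D := by exact_mod_cast hD2
    linarith
  have h3 : (q : ℝ) / 2 ≤ (((Finset.univ.filter fun x : F => x ≠ 0).offDiag.filter fun z =>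
      Ψ.eval z.1 / z.1 ^ j = Ψ.eval z.2 / z.2 ^ j).card : ℝ) := by
    have h4 := (abs_le.1 hW).1
    have h5 : (Z.card : ℝ) ≤ Z'.card + 2 * D := by exact_mod_cast hZZ'
    have h6 : (Z'.card : ℝ) ≤ (((Finset.univ.filter fun x : F => x ≠ 0).offDiag.filter fun z =>
      Ψ.eval z.1 / z.1 ^ j = Ψ.eval z.2 / z.2 ^ j).card : ℝ) := by exact_mod_cast hpairs
    have h7 : (Pool.Agent.R410.PW.WC Φ.natDegree D (2 * Φ.natDegree * D) : ℝ) ≤ K := by exact_mod_cast hWC
    have h8 : (Pool.Agent.R410.PW.WC Φ.natDegree D (2 * Φ.natDegree * D) : ℝ) * √(q : ℝ) ≤ K * √(q : ℝ) := by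
      gcongr
    push_cast at hsq
    have h9 : (0 : ℝ) ≤ K := by positivity
    have h10 : (1 : ℝ) ≤ √(q : ℝ) := by
      have : (2 : ℝ) ≤ D := by exact_mod_cast hD2
      linarith
    nlinarith
  have h4 : (q : ℝ) / 2 / D ≤ (((Finset.univ.filter fun x : F => x ≠ 0).offDiag.filter fun z =>
      Ψ.eval z.1 / z.1 ^ j = Ψ.eval z.2 / z.2 ^ j).card : ℝ) / D := by
    gcongr
  have h5 : (q : ℝ) / 2 / D = 1 / (2 * D) * q := by
    field_simp
  linarith

end Pool.Agent.Helper3K9.EV
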